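import Pool.Agent.H59.L.S8.H888R2.KT.Defs
import Pool.Agent.H59.L.S8.H888R2.KT.N0
import Pool.Agent.H59.L.S8.H888R2.KT.N0b
import Pool.Agent.H59.L.S8.H888R2.KT.N6a

/-!
# The Gaussian channel: Bessel inequality for the gradient of a Gaussian average (task N6b)
-/

set_option autoImplicit false

namespace Pool.Agent.H888R2.KT

open MeasureTheory Set Matrix Pool.Agent.H888R2.KC
open scoped ENNReal InnerProductSpace
open Pool.Agent.H212R2.KLS (mu Bdd ev gr)

variable {κ : Type} [Fintype κ]

namespace N6bx

theorem fderiv_kernel (h : ℝ) (x y w : EuclideanSpace ℝ κ) :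
    HasFDerivAt (fun y : EuclideanSpace ℝ κ => Real.exp (-(‖x - y‖ ^ 2 / (2 * h))))
      (Real.exp (-(‖x - y‖ ^ 2 / (2 * h))) • ((1 / h) • innerSL ℝ (x - y))) y ∧
    fderiv ℝ (fun y : EuclideanSpace ℝ κ => Real.exp (-(‖x - y‖ ^ 2 / (2 * h)))) y w =
      ⟪x - y, w⟫_ℝ / h * Real.exp (-(‖x - y‖ ^ 2 / (2 * h))) := by
  have h1 : HasFDerivAt (fun y : EuclideanSpace ℝ κ => x - y)
      (-(ContinuousLinearMap.id ℝ (EuclideanSpace ℝ κ))) y := by
    simpa using (hasFDerivAt_id y).const_sub x
  have h2 : HasFDerivAt (fun y : EuclideanSpace ℝ κ => ‖x - y‖ ^ 2)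
      (-(2 • innerSL ℝ (x - y))) y := by
    have h3 := h1.norm_sq
    refine h3.congr_fderiv ?_
    ext v
    simp
    ring
  have h4 : HasFDerivAt (fun y : EuclideanSpace ℝ κ => -(‖x - y‖ ^ 2 / (2 * h)))
      ((1 / h) • innerSL ℝ (x - y)) y := by
    have h5 := (h2.mul_const ((2 * h)⁻¹)).neg
    have h6 : (fun y : EuclideanSpace ℝ κ => -(‖x - y‖ ^ 2 / (2 * h))) =
        fun y => -(‖x - y‖ ^ 2 * (2 * h)⁻¹) := by
      funext y
      rw [div_eq_mul_inv]
    rw [h6]
    refine h5.congr_fderiv ?_
    ext v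
    simp only [ContinuousLinearMap.neg_apply, ContinuousLinearMap.smul_apply, smul_eq_mul,
      innerSL_apply_apply, nsmul_eq_mul, Nat.cast_ofNat, mul_inv, one_div]
    ring
  have h7 := h4.exp
  refine ⟨h7, ?_⟩
  rw [h7.fderiv]
  simp only [ContinuousLinearMap.smul_apply, smul_eq_mul, innerSL_apply_apply]
  ring

end N6bx

open N6bx in
theorem gs_bessel (h : ℝ) (hh : 0 < h) (φ : EuclideanSpace ℝ κ → ℝ) (hφ : ContDiff ℝ 1 φ) (B : ℝ)
    (hb : ∀ y, |φ y| ≤ B) (hb1 : ∀ y, ‖fderiv ℝ φ y‖ ≤ B) (x : EuclideanSpace ℝ κ) :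
    h * ‖fderiv ℝ (gs h φ) x‖ ^ 2 ≤ gs h (fun y => φ y ^ 2) x - (gs h φ x) ^ 2 := by
  obtain ⟨gp, g1, g2, g3⟩ := gc_pos (κ := κ) h hh
  set k : EuclideanSpace ℝ κ → ℝ := fun y => Real.exp (-(‖x - y‖ ^ 2 / (2 * h))) with hk
  have hk0 : ∀ y, 0 ≤ k y := fun y => (Real.exp_pos _).le
  have hkc : Continuous k := by fun_prop
  have hφc : Continuous φ := hφ.continuous
  have hB0 : 0 ≤ B := le_trans (abs_nonneg _) (hb 0)
  have Ik : Integrable k := g2 x
  have I1 : Integrable fun y => ‖x - y‖ * k y := g3 x
  -- main one-dimensional estimate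
  have key : ∀ w : EuclideanSpace ℝ κ, h * (fderiv ℝ (gs h φ) x w) ^ 2 ≤
      (gs h (fun y => φ y ^ 2) x - (gs h φ x) ^ 2) * ‖w‖ ^ 2 := by
    intro w
    obtain ⟨q1, q2, q3⟩ := gauss2 (κ := κ) h hh w
    set z : EuclideanSpace ℝ κ → ℝ := fun y => ⟪y - x, w⟫_ℝ with hz
    have hzc : Continuous z := by fun_prop
    have hzb : ∀ y, |z y| ≤ ‖w‖ * ‖x - y‖ := by
      intro y
      rw [norm_sub_rev, mul_comm]
      exact abs_real_inner_le_norm _ _
    -- integrability
    have Iz2 : Integrable fun y => z y ^ 2 * k y := by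
      have := q1.comp_sub_right x
      refine this.congr (Filter.Eventually.of_forall fun y => ?_)
      simp only [hz, hk]
      rw [norm_sub_rev y x]
    have Iz : Integrable fun y => z y * k y := by
      refine (I1.const_mul ‖w‖).mono' (hzc.mul hkc).aestronglyMeasurable
        (Filter.Eventually.of_forall fun y => ?_)
      rw [norm_mul, Real.norm_eq_abs, Real.norm_of_nonneg (hk0 y), ← mul_assoc]
      exact mul_le_mul_of_nonneg_right (hzb y) (hk0 y)
    have Ibd : ∀ (a g : EuclideanSpace ℝ κ → ℝ) (C : ℝ), Continuous a → Continuous g →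
        (∀ y, |a y| ≤ C) → Integrable (fun y => g y * k y) →
        Integrable fun y => a y * g y * k y := by
      intro a g C ha hg hC hI
      refine (hI.norm.const_mul C).mono' ((ha.mul hg).mul hkc).aestronglyMeasurable
        (Filter.Eventually.of_forall fun y => ?_)
      rw [mul_assoc, norm_mul]
      exact mul_le_mul_of_nonneg_right (hC y) (norm_nonneg _)
    have Iφ : Integrable fun y => φ y * k y := by
      have := Ibd φ (fun _ => 1) B hφc continuous_const hb (by simpa using Ik)
      simpa using this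
    have Iφ2 : Integrable fun y => φ y ^ 2 * k y := by
      have := Ibd φ φ B hφc hφc hb Iφ
      simpa [pow_two] using this
    have Iφz : Integrable fun y => φ y * z y * k y := Ibd φ z B hφc hzc hb Iz
    -- values of the integrals
    have E1 : ∫ y, φ y ^ 2 * k y = gc κ h * gs h (fun y => φ y ^ 2) x := by
      unfold gs
      rw [mul_div_cancel₀ _ gp.ne']
    have E2 : ∫ y, φ y * k y = gc κ h * gs h φ x := by
      unfold gs
      rw [mul_div_cancel₀ _ gp.ne']
    have E3 : ∫ y, k y = gc κ h := g1 x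
    have E4 : ∫ y, z y * k y = 0 := by
      rw [← q3, ← integral_sub_right_eq_self (fun y : EuclideanSpace ℝ κ =>
        ⟪y, w⟫_ℝ * Real.exp (-(‖y‖ ^ 2 / (2 * h)))) x]
      refine integral_congr_ae (Filter.Eventually.of_forall fun y => ?_)
      simp only [hz, hk]
      rw [norm_sub_rev y x]
    have E5 : ∫ y, z y ^ 2 * k y = h * ‖w‖ ^ 2 * gc κ h := by
      rw [← q2, ← integral_sub_right_eq_self (fun y : EuclideanSpace ℝ κ =>
        ⟪y, w⟫_ℝ ^ 2 * Real.exp (-(‖y‖ ^ 2 / (2 * h)))) x]
      refine integral_congr_ae (Filter.Eventually.of_forall fun y => ?_)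
      simp only [hz, hk]
      rw [norm_sub_rev y x]
    -- the derivative
    have E6 : ∫ y, φ y * z y * k y = gc κ h * h * fderiv ℝ (gs h φ) x w := by
      rw [(gs_deriv h hh φ hφ B hb hb1).2 x w]
      unfold gs
      have hdk : Differentiable ℝ k := fun y => (fderiv_kernel h x y w).1.differentiableAt
      have hkd : ∀ y, fderiv ℝ k y w = -(z y) / h * k y := by
        intro y
        rw [hk, (fderiv_kernel h x y w).2]
        simp only [hz]
        rw [← neg_sub y x, inner_neg_left]
      have hdφ : Continuous fun y => fderiv ℝ φ y w :=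
        (hφ.continuous_fderiv (by norm_num)).clm_apply continuous_const
      have J1 : Integrable fun y => fderiv ℝ φ y w * k y := by
        have := Ibd (fun y => fderiv ℝ φ y w) (fun _ => 1) (B * ‖w‖) hdφ continuous_const
          (fun y => by
            have h8 := (fderiv ℝ φ y).le_opNorm w
            rw [Real.norm_eq_abs] at h8
            exact h8.trans (mul_le_mul_of_nonneg_right (hb1 y) (norm_nonneg w)))
          (by simpa using Ik)
        simpa using this
      have J2 : Integrable fun y => φ y * fderiv ℝ k y w := by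
        refine (Iφz.const_mul (-(1 / h))).congr (Filter.Eventually.of_forall fun y => ?_)
        simp only
        rw [hkd]
        ring
      have h9 := integral_mul_fderiv_eq_neg_fderiv_mul_of_integrable J1 J2 Iφ
        (fun y _ => hφ.differentiable (by norm_num) y) (fun y _ => hdk y)
      have h10 : ∫ y, φ y * fderiv ℝ k y w = -(1 / h) * ∫ y, φ y * z y * k y := by
        rw [← integral_const_mul]
        refine integral_congr_ae (Filter.Eventually.of_forall fun y => ?_)
        simp only
        rw [hkd]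
        ring
      rw [h10] at h9
      have h11 : ∫ y, φ y * z y * k y = h * ∫ y, fderiv ℝ φ y w * k y := by
        have h12 : -(1 / h) * ∫ y, φ y * z y * k y = -∫ y, fderiv ℝ φ y w * k y := h9
        field_simp at h12
        linarith
      rw [h11, mul_comm (gc κ h) h, mul_assoc, mul_div_cancel₀ _ gp.ne']
    -- the quadratic polynomial
    set D := gs h (fun y => φ y ^ 2) x - (gs h φ x) ^ 2 with hD
    set c := gs h φ x with hc
    set a := fderiv ℝ (gs h φ) x w with ha
    have quad : ∀ t : ℝ, 0 ≤ D + t ^ 2 * (h * ‖w‖ ^ 2) - 2 * t * h * a := by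
      intro t
      have h1 : 0 ≤ ∫ y, (φ y - c - t * z y) ^ 2 * k y :=
        integral_nonneg fun y => mul_nonneg (sq_nonneg _) (hk0 y)
      have h2 : ∫ y, (φ y - c - t * z y) ^ 2 * k y =
          gc κ h * (D + t ^ 2 * (h * ‖w‖ ^ 2) - 2 * t * h * a) := by
        have h3 : ∀ y, (φ y - c - t * z y) ^ 2 * k y =
            (φ y ^ 2 * k y + c ^ 2 * k y + t ^ 2 * (z y ^ 2 * k y)) -
            (2 * c * (φ y * k y) + 2 * t * (φ y * z y * k y)) + 2 * c * t * (z y * k y) := by
          intro y
          ring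
        rw [integral_congr_ae (Filter.Eventually.of_forall h3)]
        have s0 : Integrable fun y => c ^ 2 * k y := Ik.const_mul _
        have s1 : Integrable fun y => φ y ^ 2 * k y + c ^ 2 * k y := Iφ2.add s0
        have s2 : Integrable fun y => t ^ 2 * (z y ^ 2 * k y) := Iz2.const_mul _
        have s3 : Integrable fun y => φ y ^ 2 * k y + c ^ 2 * k y + t ^ 2 * (z y ^ 2 * k y) :=
          s1.add s2
        have s4 : Integrable fun y => 2 * c * (φ y * k y) := Iφ.const_mul _
        have s5 : Integrable fun y => 2 * t * (φ y * z y * k y) := Iφz.const_mul _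
        have s6 : Integrable fun y => 2 * c * (φ y * k y) + 2 * t * (φ y * z y * k y) := s4.add s5
        have s7 : Integrable fun y => (φ y ^ 2 * k y + c ^ 2 * k y + t ^ 2 * (z y ^ 2 * k y)) -
            (2 * c * (φ y * k y) + 2 * t * (φ y * z y * k y)) := s3.sub s6
        have s8 : Integrable fun y => 2 * c * t * (z y * k y) := Iz.const_mul _
        rw [integral_add s7 s8, integral_sub s3 s6, integral_add s1 s2, integral_add Iφ2 s0,
          integral_add s4 s5,
          integral_const_mul, integral_const_mul, integral_const_mul, integral_const_mul,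
          integral_const_mul, E1, E2, E3, E4, E5, E6]
        rw [hD]
        ring
      rw [h2] at h1
      exact nonneg_of_mul_nonneg_right h1 gp
    by_cases hw : w = 0
    · rw [ha, hw, map_zero]
      simp
    · have hwn : 0 < ‖w‖ ^ 2 := by
        have := norm_pos_iff.2 hw
        positivity
      have h1 := quad (a / ‖w‖ ^ 2)
      have h2 : D + (a / ‖w‖ ^ 2) ^ 2 * (h * ‖w‖ ^ 2) - 2 * (a / ‖w‖ ^ 2) * h * a =
          D - h * a ^ 2 / ‖w‖ ^ 2 := by
        field_simp
        ring
      rw [h2, sub_nonneg, div_le_iff₀ hwn] at h1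
      exact h1
  -- conclusion
  have hD0 : 0 ≤ gs h (fun y => φ y ^ 2) x - (gs h φ x) ^ 2 := by
    by_cases hE : Nontrivial (EuclideanSpace ℝ κ)
    · obtain ⟨w, hw⟩ := exists_ne (0 : EuclideanSpace ℝ κ)
      have h1 := key w
      have h2 : 0 < ‖w‖ ^ 2 := by
        have := norm_pos_iff.2 hw
        positivity
      have h3 : 0 ≤ h * (fderiv ℝ (gs h φ) x w) ^ 2 := by positivity
      exact nonneg_of_mul_nonneg_left (h3.trans h1) h2
    · rw [not_nontrivial_iff_subsingleton] at hE
      -- all points are equal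
      have hconst : ∀ y, φ y = φ x := fun y => by rw [Subsingleton.elim y x]
      have e1 : gs h φ x = φ x := by
        unfold gs
        have : ∫ y, φ y * Real.exp (-(‖x - y‖ ^ 2 / (2 * h))) = φ x * gc κ h := by
          rw [← g1 x, ← integral_const_mul]
          refine integral_congr_ae (Filter.Eventually.of_forall fun y => ?_)
          simp only
          rw [hconst y]
        rw [this, mul_div_cancel_right₀ _ gp.ne']
      have e2 : gs h (fun y => φ y ^ 2) x = φ x ^ 2 := by
        unfold gs
        have : ∫ y, φ y ^ 2 * Real.exp (-(‖x - y‖ ^ 2 / (2 * h))) = φ x ^ 2 * gc κ h := by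
          rw [← g1 x, ← integral_const_mul]
          refine integral_congr_ae (Filter.Eventually.of_forall fun y => ?_)
          simp only
          rw [hconst y]
        rw [this, mul_div_cancel_right₀ _ gp.ne']
      rw [e1, e2, sub_self]
  set D := gs h (fun y => φ y ^ 2) x - (gs h φ x) ^ 2 with hD
  have hop : ‖fderiv ℝ (gs h φ) x‖ ≤ Real.sqrt (D / h) := by
    refine ContinuousLinearMap.opNorm_le_bound _ (Real.sqrt_nonneg _) fun w => ?_
    rw [Real.norm_eq_abs]
    refine abs_le_of_sq_le_sq ?_ (by positivity)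
    rw [mul_pow, Real.sq_sqrt (by positivity)]
    have h1 := key w
    rw [div_mul_eq_mul_div, le_div_iff₀ hh]
    linarith
  have h2 : ‖fderiv ℝ (gs h φ) x‖ ^ 2 ≤ D / h := by
    have := pow_le_pow_left₀ (norm_nonneg _) hop 2
    rwa [Real.sq_sqrt (by positivity)] at this
  rw [le_div_iff₀ hh] at h2
  linarith

end Pool.Agent.H888R2.KT
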