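import Pool.Agent.H59.L.S8.H888R2.KT.Defs
import Pool.Agent.H59.L.S8.H888R2.KT.N0
import Pool.Agent.H59.L.S8.H888R2.KT.N3

/-!
# N4: smoothness and bounds of the posterior means
-/

set_option autoImplicit false

namespace Pool.Agent.H888R2.KT

open MeasureTheory Set Matrix Pool.Agent.H888R2.KC
open scoped ENNReal InnerProductSpace
open Pool.Agent.H212R2.KLS (mu Bdd ev gr)

variable {κ : Type} [Fintype κ] {ρ : EuclideanSpace ℝ κ → ℝ}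

namespace N4x

theorem bd (hρ : LC ρ) (h : ℝ) (hh : 0 < h) {R : ℝ} (hR : ∀ x, R < ‖x‖ → ρ x = 0)
    (v : EuclideanSpace ℝ κ → ℝ) (M : ℝ) (hM : ∀ x, ‖x‖ ≤ R → |v x| ≤ M)
    (y : EuclideanSpace ℝ κ) : |pst h ρ v y| ≤ M := by
  obtain ⟨hz, hint⟩ := zz_pos hρ h hh y
  unfold pst
  rw [abs_div, abs_of_pos hz, div_le_iff₀ hz]
  have h1 : Integrable (fun x => M * Real.exp (-(‖x - y‖ ^ 2 / (2 * h)))) (mu ρ) :=
    hint (fun _ => M) continuous_const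
  have h2 : ∀ᵐ x ∂(mu ρ), ‖v x * Real.exp (-(‖x - y‖ ^ 2 / (2 * h)))‖ ≤
      M * Real.exp (-(‖x - y‖ ^ 2 / (2 * h))) := by
    unfold mu
    rw [ae_withDensity_iff (by exact hρ.meas.ennreal_ofReal)]
    refine Filter.Eventually.of_forall fun x hx => ?_
    have hxR : ‖x‖ ≤ R := by
      by_contra hc
      exact hx (by rw [hR x (not_le.1 hc), ENNReal.ofReal_zero])
    rw [norm_mul, Real.norm_eq_abs, Real.norm_eq_abs, Real.abs_exp]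
    exact mul_le_mul_of_nonneg_right (hM x hxR) (Real.exp_pos _).le
  have h3 := norm_integral_le_of_norm_le h1 h2
  rw [Real.norm_eq_abs, integral_const_mul] at h3
  exact h3

theorem diff (hρ : LC ρ) (h : ℝ) (hh : 0 < h) (v : EuclideanSpace ℝ κ → ℝ)
    (hv : Continuous v) : Differentiable ℝ (pst h ρ v) :=
  fun y => (pst_deriv hρ h hh v hv y).1

theorem dv (hρ : LC ρ) (h : ℝ) (hh : 0 < h) (v : EuclideanSpace ℝ κ → ℝ)
    (hv : Continuous v) (w : EuclideanSpace ℝ κ) :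
    (fun y => fderiv ℝ (pst h ρ v) y w) = fun y => h⁻¹ * (pst h ρ (fun x => v x * ⟪x, w⟫_ℝ) y -
      pst h ρ v y * pst h ρ (fun x => ⟪x, w⟫_ℝ) y) :=
  funext fun y => (pst_deriv hρ h hh v hv y).2 w

theorem cin (w : EuclideanSpace ℝ κ) : Continuous fun x : EuclideanSpace ℝ κ => ⟪x, w⟫_ℝ := by
  fun_prop

theorem smooth (hρ : LC ρ) (h : ℝ) (hh : 0 < h) (n : ℕ) : ∀ v : EuclideanSpace ℝ κ → ℝ,
    Continuous v → ContDiff ℝ n (pst h ρ v) := by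
  induction n with
  | zero =>
    intro v hv
    rw [Nat.cast_zero, contDiff_zero]
    exact (diff hρ h hh v hv).continuous
  | succ n ih =>
    intro v hv
    rw [Nat.cast_succ, contDiff_succ_iff_fderiv]
    refine ⟨diff hρ h hh v hv, by simp, ?_⟩
    rw [contDiff_clm_apply_iff]
    intro w
    rw [dv hρ h hh v hv w]
    exact contDiff_const.mul ((ih _ (hv.mul (cin w))).sub ((ih _ hv).mul (ih _ (cin w))))

theorem bd1 (hρ : LC ρ) (h : ℝ) (hh : 0 < h) {R : ℝ} (hR0 : 0 ≤ R)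
    (hR : ∀ x, R < ‖x‖ → ρ x = 0)
    (v : EuclideanSpace ℝ κ → ℝ) (hv : Continuous v) (M : ℝ) (hM0 : 0 ≤ M)
    (hM : ∀ x, ‖x‖ ≤ R → |v x| ≤ M)
    (y : EuclideanSpace ℝ κ) : ‖fderiv ℝ (pst h ρ v) y‖ ≤ h⁻¹ * (2 * M * R) := by
  refine ContinuousLinearMap.opNorm_le_bound _ (by positivity) fun w => ?_
  rw [(pst_deriv hρ h hh v hv y).2 w, Real.norm_eq_abs, abs_mul,
    abs_of_pos (inv_pos.2 hh), mul_assoc]
  refine mul_le_mul_of_nonneg_left ?_ (inv_pos.2 hh).le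
  have hin : ∀ x : EuclideanSpace ℝ κ, ‖x‖ ≤ R → |⟪x, w⟫_ℝ| ≤ R * ‖w‖ := fun x hx =>
    (abs_real_inner_le_norm x w).trans (mul_le_mul_of_nonneg_right hx (norm_nonneg _))
  have h1 : |pst h ρ (fun x => v x * ⟪x, w⟫_ℝ) y| ≤ M * (R * ‖w‖) :=
    bd hρ h hh hR _ _ (fun x hx => by
      rw [abs_mul]
      exact mul_le_mul (hM x hx) (hin x hx) (abs_nonneg _) hM0) y
  have h2 : |pst h ρ v y * pst h ρ (fun x => ⟪x, w⟫_ℝ) y| ≤ M * (R * ‖w‖) := by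
    rw [abs_mul]
    exact mul_le_mul (bd hρ h hh hR _ _ hM y) (bd hρ h hh hR _ _ hin y) (abs_nonneg _) hM0
  refine (abs_sub _ _).trans ?_
  linarith

end N4x

theorem pst_smooth (hρ : LC ρ) (h : ℝ) (hh : 0 < h) (u : EuclideanSpace ℝ κ → ℝ)
    (hu : Continuous u) :
    ContDiff ℝ 2 (pst h ρ u) ∧ ∃ B : ℝ, ∀ y, |pst h ρ u y| ≤ B ∧ ‖fderiv ℝ (pst h ρ u) y‖ ≤ B ∧
      ∀ w, ‖w‖ ≤ 1 → ‖fderiv ℝ (fun z => fderiv ℝ (pst h ρ u) z w) y‖ ≤ B := by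
  refine ⟨by exact_mod_cast N4x.smooth hρ h hh 2 u hu, ?_⟩
  obtain ⟨R0, hR0⟩ := hρ.bdd
  obtain ⟨R, hRpos, hR⟩ : ∃ R : ℝ, 0 ≤ R ∧ ∀ x, R < ‖x‖ → ρ x = 0 :=
    ⟨|R0|, abs_nonneg _, fun x hx => hR0 x (lt_of_le_of_lt (le_abs_self _) hx)⟩
  obtain ⟨M0, hM0⟩ := (isCompact_closedBall (0 : EuclideanSpace ℝ κ) R).exists_bound_of_continuousOn
    hu.continuousOn
  obtain ⟨M, hMpos, hM⟩ : ∃ M : ℝ, 0 ≤ M ∧ ∀ x : EuclideanSpace ℝ κ, ‖x‖ ≤ R → |u x| ≤ M :=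
    ⟨|M0|, abs_nonneg _, fun x hx => (hM0 x (by simpa using hx)).trans (le_abs_self _)⟩
  refine ⟨M + h⁻¹ * (2 * M * R) + h⁻¹ * (h⁻¹ * (6 * M * R ^ 2)), fun y => ⟨?_, ?_, fun w hw => ?_⟩⟩
  · have h1 := N4x.bd hρ h hh hR u M hM y
    have h2 : 0 ≤ h⁻¹ * (2 * M * R) := by positivity
    have h3 : 0 ≤ h⁻¹ * (h⁻¹ * (6 * M * R ^ 2)) := by positivity
    linarith
  · have h1 := N4x.bd1 hρ h hh hRpos hR u hu M hMpos hM y
    have h3 : 0 ≤ h⁻¹ * (h⁻¹ * (6 * M * R ^ 2)) := by positivity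
    linarith
  · have hin : ∀ x : EuclideanSpace ℝ κ, ‖x‖ ≤ R → |⟪x, w⟫_ℝ| ≤ R := fun x hx =>
      (abs_real_inner_le_norm x w).trans (by
        calc ‖x‖ * ‖w‖ ≤ R * 1 := mul_le_mul hx hw (norm_nonneg _) hRpos
          _ = R := mul_one R)
    have hin2 : ∀ x : EuclideanSpace ℝ κ, ‖x‖ ≤ R → |u x * ⟪x, w⟫_ℝ| ≤ M * R := fun x hx => by
      rw [abs_mul]
      exact mul_le_mul (hM x hx) (hin x hx) (abs_nonneg _) hMpos
    have hc1 : Continuous fun x : EuclideanSpace ℝ κ => u x * ⟪x, w⟫_ℝ := hu.mul (N4x.cin w)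
    have hc2 := N4x.cin w
    have hd1 := N4x.diff hρ h hh _ hc1 y
    have hd2 := N4x.diff hρ h hh _ hc2 y
    have hd0 := N4x.diff hρ h hh _ hu y
    rw [N4x.dv hρ h hh u hu w]
    have hF := ((hd1.hasFDerivAt.sub (hd0.hasFDerivAt.mul hd2.hasFDerivAt)).const_mul h⁻¹)
    have he := hF.fderiv
    have hb1 := N4x.bd1 hρ h hh hRpos hR _ hc1 (M * R) (by positivity) hin2 y
    have hb2 := N4x.bd1 hρ h hh hRpos hR _ hc2 R hRpos hin y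
    have hb0 := N4x.bd1 hρ h hh hRpos hR u hu M hMpos hM y
    have ha0 := N4x.bd hρ h hh hR u M hM y
    have ha2 := N4x.bd hρ h hh hR _ R hin y
    have he' : fderiv ℝ (fun y => h⁻¹ * (pst h ρ (fun x => u x * ⟪x, w⟫_ℝ) y -
      pst h ρ u y * pst h ρ (fun x => ⟪x, w⟫_ℝ) y)) y = _ := he
    rw [he', norm_smul, Real.norm_eq_abs, abs_of_pos (inv_pos.2 hh)]
    have h1 : ‖fderiv ℝ (pst h ρ (fun x => u x * ⟪x, w⟫_ℝ)) y -
        (pst h ρ u y • fderiv ℝ (pst h ρ (fun x => ⟪x, w⟫_ℝ)) y +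
          pst h ρ (fun x => ⟪x, w⟫_ℝ) y • fderiv ℝ (pst h ρ u) y)‖ ≤
        h⁻¹ * (6 * M * R ^ 2) := by
      refine (norm_sub_le _ _).trans ?_
      have h2 : ‖pst h ρ u y • fderiv ℝ (pst h ρ (fun x => ⟪x, w⟫_ℝ)) y‖ ≤
          M * (h⁻¹ * (2 * R * R)) := by
        rw [norm_smul, Real.norm_eq_abs]
        exact mul_le_mul ha0 hb2 (norm_nonneg _) hMpos
      have h3 : ‖pst h ρ (fun x => ⟪x, w⟫_ℝ) y • fderiv ℝ (pst h ρ u) y‖ ≤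
          R * (h⁻¹ * (2 * M * R)) := by
        rw [norm_smul, Real.norm_eq_abs]
        exact mul_le_mul ha2 hb0 (norm_nonneg _) hRpos
      have h4 := norm_add_le (pst h ρ u y • fderiv ℝ (pst h ρ (fun x => ⟪x, w⟫_ℝ)) y)
        (pst h ρ (fun x => ⟪x, w⟫_ℝ) y • fderiv ℝ (pst h ρ u) y)
      nlinarith
    have h5 : 0 ≤ h⁻¹ * (2 * M * R) := by positivity
    have h6 := mul_le_mul_of_nonneg_left h1 (inv_pos.2 hh).le
    linarith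

end Pool.Agent.H888R2.KT
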