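import Pool.Agent.H59.L.S8.H888R2.KT.Defs
import Pool.Agent.H59.L.S8.H212R2.KLS.R4

/-!
# KT N1 (helper177): the Brascamp-Lieb inequality for a quadratic form
-/

set_option autoImplicit false

namespace Pool.Agent.H888R2.KT

open MeasureTheory Set Matrix Pool.Agent.H888R2.KC
open scoped ENNReal InnerProductSpace
open Pool.Agent.H212R2.KLS (mu Bdd ev gr)

variable {κ : Type} [Fintype κ]

theorem bl_lin (w : EuclideanSpace ℝ κ → ℝ) (hw : ∀ x, 0 ≤ w x) (hwm : Measurable w)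
    (hwb : ∃ B, ∀ x, w x ≤ B) (hws : Bdd w) (S : EuclideanSpace ℝ κ ≃L[ℝ] EuclideanSpace ℝ κ)
    (hmid : ∀ x y, w x * w y ≤ (w ((1 / 2 : ℝ) • (x + y))) ^ 2 *
      Real.exp (-(‖S.symm (x - y)‖ ^ 2 / 4)))
    (f : EuclideanSpace ℝ κ → ℝ) (hf : ContDiff ℝ 1 f) :
    ∃ c : ℝ, ∫ x, (f x - c) ^ 2 * w x ≤
      ∫ x, ‖(fderiv ℝ f x).comp (S : EuclideanSpace ℝ κ →L[ℝ] EuclideanSpace ℝ κ)‖ ^ 2 * w x := by
  have hν : (Measure.map S.symm (volume : Measure (EuclideanSpace ℝ κ))).IsAddHaarMeasure :=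
    S.symm.isAddHaarMeasure_map volume
  have hemb : MeasurableEmbedding S.symm := S.symm.toHomeomorph.measurableEmbedding
  obtain ⟨B, hB⟩ := hwb
  obtain ⟨c, hc⟩ := Pool.Agent.H212R2.KLS.poincare_of_strong
    (Measure.map S.symm (volume : Measure (EuclideanSpace ℝ κ))) (fun x => w (S x))
    (fun x => hw _) (hwm.comp S.continuous.measurable) ⟨B, fun x => hB _⟩ (by
      obtain ⟨R, hR⟩ := hws
      refine ⟨‖(S.symm : EuclideanSpace ℝ κ →L[ℝ] EuclideanSpace ℝ κ)‖ * R, fun x hx => hR _ ?_⟩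
      have h1 : ‖x‖ ≤ ‖(S.symm : EuclideanSpace ℝ κ →L[ℝ] EuclideanSpace ℝ κ)‖ * ‖S x‖ := by
        have := (S.symm : EuclideanSpace ℝ κ →L[ℝ] EuclideanSpace ℝ κ).le_opNorm (S x)
        simpa using this
      exact lt_of_mul_lt_mul_left (lt_of_lt_of_le hx h1) (norm_nonneg _))
    1 one_pos (by
      intro x y
      have h1 := hmid (S x) (S y)
      have h2 : S.symm (S x - S y) = x - y := by simp
      have h3 : (1 / 2 : ℝ) • (S x + S y) = S ((1 / 2 : ℝ) • (x + y)) := by simp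
      rw [h2, h3] at h1
      have h4 : (1 : ℝ) / 4 * ‖x - y‖ ^ 2 = ‖x - y‖ ^ 2 / 4 := by ring
      rw [h4]
      exact h1)
    (fun x => f (S x)) (hf.comp S.contDiff)
  refine ⟨c, ?_⟩
  rw [hemb.integral_map, hemb.integral_map, inv_one, one_mul] at hc
  have e1 : ∀ x, fderiv ℝ (fun x => f (S x)) x =
      (fderiv ℝ f (S x)).comp (S : EuclideanSpace ℝ κ →L[ℝ] EuclideanSpace ℝ κ) :=
    fun x => S.comp_right_fderiv
  simpa only [e1, ContinuousLinearEquiv.apply_symm_apply] using hc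

end Pool.Agent.H888R2.KT
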