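import Pool.Agent.H59.L.S8.H888R2.KT.Defs
import Pool.Agent.H59.L.S8.H888R2.KT.N0
import Pool.Agent.H59.L.S8.H888R2.KT.N3
import Pool.Agent.H59.L.S8.H888R2.KT.N5a

/-!
# N5: gradient contraction
-/

set_option autoImplicit false

namespace Pool.Agent.H888R2.KT

open MeasureTheory Set Matrix Pool.Agent.H888R2.KC
open scoped ENNReal InnerProductSpace
open Pool.Agent.H212R2.KLS (mu Bdd ev gr)

namespace N5x

variable {κ : Type} [Fintype κ] {ρ : EuclideanSpace ℝ κ → ℝ}

theorem pst_add (hρ : LC ρ) (h : ℝ) (hh : 0 < h) (y : EuclideanSpace ℝ κ)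
    (u v : EuclideanSpace ℝ κ → ℝ) (hu : Continuous u) (hv : Continuous v) :
    pst h ρ (fun x => u x + v x) y = pst h ρ u y + pst h ρ v y := by
  have h1 := (zz_pos hρ h hh y).2 u hu
  have h2 := (zz_pos hρ h hh y).2 v hv
  unfold pst
  rw [← add_div, ← integral_add h1 h2]
  congr 2
  funext x
  ring

theorem pst_smul (h : ℝ) (y : EuclideanSpace ℝ κ) (c : ℝ)
    (u : EuclideanSpace ℝ κ → ℝ) :
    pst h ρ (fun x => c * u x) y = c * pst h ρ u y := by
  unfold pst
  rw [← mul_div_assoc, ← integral_const_mul]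
  congr 2
  funext x
  ring

theorem pst_const (hρ : LC ρ) (h : ℝ) (hh : 0 < h) (y : EuclideanSpace ℝ κ) (c : ℝ) :
    pst h ρ (fun _ => c) y = c := by
  have h1 := (zz_pos hρ h hh y).1
  unfold pst
  rw [integral_const_mul]
  change c * zz h ρ y / zz h ρ y = c
  rw [mul_div_assoc, div_self h1.ne', mul_one]

theorem pst_mono (hρ : LC ρ) (h : ℝ) (hh : 0 < h) (y : EuclideanSpace ℝ κ)
    (u v : EuclideanSpace ℝ κ → ℝ) (hu : Continuous u) (hv : Continuous v)
    (huv : ∀ x, u x ≤ v x) : pst h ρ u y ≤ pst h ρ v y := by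
  have h1 := (zz_pos hρ h hh y).2 u hu
  have h2 := (zz_pos hρ h hh y).2 v hv
  have h3 := (zz_pos hρ h hh y).1
  unfold pst
  refine div_le_div_of_nonneg_right ?_ h3.le
  refine integral_mono h1 h2 fun x => ?_
  exact mul_le_mul_of_nonneg_right (huv x) (Real.exp_pos _).le

theorem var_nonneg (hρ : LC ρ) (h : ℝ) (hh : 0 < h) (y : EuclideanSpace ℝ κ)
    (F : EuclideanSpace ℝ κ → ℝ) (hF : Continuous F) :
    (pst h ρ F y) ^ 2 ≤ pst h ρ (fun x => F x ^ 2) y := by
  set c := pst h ρ F y with hc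
  have h1 : 0 ≤ pst h ρ (fun x => (F x ^ 2 + (-2 * c) * F x) + c ^ 2) y := by
    have h2 := pst_mono hρ h hh y (fun _ => 0) (fun x => (F x ^ 2 + (-2 * c) * F x) + c ^ 2)
      continuous_const (by fun_prop) (fun x => by nlinarith [sq_nonneg (F x - c)])
    rwa [pst_const hρ h hh y] at h2
  rw [pst_add hρ h hh y _ _ (by fun_prop) (by fun_prop),
    pst_add hρ h hh y _ _ (by fun_prop) (by fun_prop), pst_smul, pst_const hρ h hh y, ← hc] at h1
  nlinarith

end N5x

open N5x in
theorem grad_contr {κ : Type} [Fintype κ] {ρ : EuclideanSpace ℝ κ → ℝ}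
    (hρ : LC ρ) {q : ℕ} (e : Fin q → EuclideanSpace ℝ κ) (he : Orthonormal ℝ e)
    (K : ℝ) (hK : 0 < K) (hT : St e K ρ) (h : ℝ) (hh : 0 < h) (u : EuclideanSpace ℝ κ → ℝ)
    (hu : ContDiff ℝ 1 u) (y : EuclideanSpace ℝ κ) :
    ‖fderiv ℝ (pst h ρ u) y‖ ^ 2 + h / K * ∑ j, (fderiv ℝ (pst h ρ u) y (e j)) ^ 2 ≤
      pst h ρ (fun x => ‖fderiv ℝ u x‖ ^ 2) y := by
  have huc : Continuous u := hu.continuous
  have hdc : Continuous fun x => fderiv ℝ u x := hu.continuous_fderiv (by norm_num)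
  set A := fderiv ℝ (pst h ρ u) y with hA
  set a : EuclideanSpace ℝ κ := (InnerProductSpace.toDual ℝ (EuclideanSpace ℝ κ)).symm A with ha
  have ha1 : ∀ w, ⟪a, w⟫_ℝ = A w := fun w => by
    rw [ha, InnerProductSpace.toDual_symm_apply]
  have ha2 : ‖a‖ = ‖A‖ := by
    rw [ha, LinearIsometryEquiv.norm_map]
  set c : Fin q → ℝ := fun j => A (e j) with hc
  have hc1 : ∀ j, ⟪e j, a⟫_ℝ = c j := fun j => by
    rw [real_inner_comm, ha1]
  set s : ℝ := ∑ j, c j ^ 2 with hs
  set p : EuclideanSpace ℝ κ := ∑ j, c j • e j with hp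
  set w : EuclideanSpace ℝ κ := a + (h / K) • p with hw
  have hap : ⟪a, p⟫_ℝ = s := by
    rw [hp, inner_sum, hs]
    refine Finset.sum_congr rfl fun j _ => ?_
    rw [inner_smul_right, ha1, hc]
    ring
  have hep : ∀ j, ⟪e j, p⟫_ℝ = c j := fun j => by
    rw [hp]
    exact he.inner_right_fintype c j
  have hpp : ⟪p, p⟫_ℝ = s := by
    conv_lhs => rw [hp]
    rw [sum_inner, hs]
    refine Finset.sum_congr rfl fun j _ => ?_
    rw [real_inner_smul_left, hep j]
    ring
  have haa : ⟪a, a⟫_ℝ = ‖A‖ ^ 2 := by rw [real_inner_self_eq_norm_sq, ha2]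
  have haw : A w = ‖A‖ ^ 2 + h / K * s := by
    rw [← ha1, hw, inner_add_right, real_inner_smul_right, hap, haa]
  have hew : ∀ j, ⟪e j, w⟫_ℝ = (1 + h / K) * c j := fun j => by
    rw [hw, inner_add_right, real_inner_smul_right, hep, hc1]
    ring
  have hww : ‖w‖ ^ 2 = ‖A‖ ^ 2 + 2 * (h / K) * s + (h / K) ^ 2 * s := by
    rw [← real_inner_self_eq_norm_sq, hw, inner_add_left, inner_add_right, inner_add_right,
      real_inner_smul_left, real_inner_smul_left, real_inner_smul_right, real_inner_smul_right,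
      real_inner_comm a p, hap, hpp, haa]
    ring
  -- the linear function
  set l : EuclideanSpace ℝ κ → ℝ := fun x => ⟪x, w⟫_ℝ with hl
  have hlc : Continuous l := by rw [hl]; fun_prop
  have hl1 : l = fun x => innerSL ℝ w x := by
    funext x
    rw [hl]
    simp only [innerSL_apply_apply]
    exact real_inner_comm _ _
  have hld : ∀ x, fderiv ℝ l x = innerSL ℝ w := fun x => by
    rw [hl1]
    exact (innerSL ℝ w).fderiv
  have hlcd : ContDiff ℝ 1 l := by
    rw [hl1]
    exact (innerSL ℝ w).contDiff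
  -- variances
  have v1 := post_bl hρ e he K hK hT h hh u hu y
  have v1' : pst h ρ (fun x => u x ^ 2) y - (pst h ρ u y) ^ 2 ≤
      h * pst h ρ (fun x => ‖fderiv ℝ u x‖ ^ 2) y := by
    refine v1.trans ?_
    rw [← pst_smul]
    refine pst_mono hρ h hh y _ _ ?_ ?_ fun x => ?_
    · have h1 : ∀ j, Continuous fun x => (fderiv ℝ u x (e j)) := fun j =>
        hdc.clm_apply continuous_const
      fun_prop
    · fun_prop
    · have h1 : 0 ≤ h ^ 2 / (h + K) * ∑ j, (fderiv ℝ u x (e j)) ^ 2 :=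
        mul_nonneg (by positivity) (Finset.sum_nonneg fun j _ => sq_nonneg _)
      linarith
  have v2 := post_bl hρ e he K hK hT h hh l hlcd y
  have v2' : pst h ρ (fun x => l x ^ 2) y - (pst h ρ l y) ^ 2 ≤
      h * (‖A‖ ^ 2 + h / K * s) := by
    refine v2.trans (le_of_eq ?_)
    have h1 : (fun x => h * ‖fderiv ℝ l x‖ ^ 2 - h ^ 2 / (h + K) * ∑ j, (fderiv ℝ l x (e j)) ^ 2) =
        fun _ => h * (‖A‖ ^ 2 + h / K * s) := by
      funext x
      rw [hld x, innerSL_apply_norm, hww]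
      have h2 : ∀ j, (innerSL ℝ w) (e j) = (1 + h / K) * c j := fun j => by
        rw [innerSL_apply_apply, real_inner_comm, hew]
      simp_rw [h2, mul_pow]
      rw [← Finset.mul_sum, ← hs]
      field_simp
      ring
    rw [h1, pst_const hρ h hh y]
  -- covariance
  have hd := (pst_deriv hρ h hh u huc y).2 w
  rw [← hA, haw] at hd
  have hcov : pst h ρ (fun x => u x * l x) y - pst h ρ u y * pst h ρ l y =
      h * (‖A‖ ^ 2 + h / K * s) := by
    rw [hd]
    rw [← mul_assoc, mul_inv_cancel₀ hh.ne', one_mul]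
  -- variance of the difference
  have hv := var_nonneg hρ h hh y (fun x => u x + (-1) * l x) (by fun_prop)
  have e1 : pst h ρ (fun x => u x + (-1) * l x) y = pst h ρ u y + (-1) * pst h ρ l y := by
    rw [pst_add hρ h hh y _ _ (by fun_prop) (by fun_prop), pst_smul]
  have e2 : pst h ρ (fun x => (u x + (-1) * l x) ^ 2) y =
      pst h ρ (fun x => u x ^ 2) y + (-2) * pst h ρ (fun x => u x * l x) y +
      pst h ρ (fun x => l x ^ 2) y := by
    have e3 : (fun x => (u x + (-1) * l x) ^ 2) =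
        fun x => (u x ^ 2 + (-2) * (u x * l x)) + l x ^ 2 := by
      funext x
      ring
    rw [e3, pst_add hρ h hh y _ _ (by fun_prop) (by fun_prop),
      pst_add hρ h hh y _ _ (by fun_prop) (by fun_prop), pst_smul]
  rw [e1, e2] at hv
  have hfin : h * (‖A‖ ^ 2 + h / K * s) ≤ h * pst h ρ (fun x => ‖fderiv ℝ u x‖ ^ 2) y := by
    nlinarith
  exact le_of_mul_le_mul_left hfin hh

end Pool.Agent.H888R2.KT
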