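import Pool.Agent.H59.L.S8.H888R2.KT.Defs
import Pool.Agent.H59.L.S8.H888R2.KC.F2

/-!
# C1b: simultaneous conjugation is a linear isometry
-/

set_option autoImplicit false

namespace Pool.Agent.H888R2.KT

open MeasureTheory Set Matrix Pool.Agent.H888R2.KC
open scoped ENNReal InnerProductSpace
open Pool.Agent.H212R2.KLS (mu Bdd ev gr)

variable {𝕜 : Type} [RCLike 𝕜] {N q : ℕ} {ι : Type} [Fintype ι]
  {Φ : EuclideanSpace ℝ ι →ₗ[ℝ] Matrix (Fin N) (Fin N) 𝕜}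

namespace C1bx

theorem cp_di (A : EuclideanSpace ℝ ι →ₗ[ℝ] EuclideanSpace ℝ ι)
    (x : EuclideanSpace ℝ (Fin q × ι)) (j : Fin q) : cp j (di q A x) = A (cp j x) := rfl

theorem ext_cp (x y : EuclideanSpace ℝ (Fin q × ι)) (h : ∀ j, cp j x = cp j y) : x = y := by
  ext p
  exact congrArg (fun z : EuclideanSpace ℝ ι => z p.2) (h p.1)

theorem norm_cp (x : EuclideanSpace ℝ (Fin q × ι)) : ‖x‖ ^ 2 = ∑ j, ‖cp j x‖ ^ 2 := by
  rw [EuclideanSpace.real_norm_sq_eq, Fintype.sum_prod_type]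
  refine Finset.sum_congr rfl fun j _ => ?_
  rw [EuclideanSpace.real_norm_sq_eq]
  rfl

end C1bx

theorem di_iso (h : Fr Φ) (U : Matrix (Fin N) (Fin N) 𝕜)
    (hU : U ∈ Matrix.unitaryGroup (Fin N) 𝕜) :
    ∃ g : EuclideanSpace ℝ (Fin q × ι) ≃ₗᵢ[ℝ] EuclideanSpace ℝ (Fin q × ι),
      ∀ x, g x = di q (cj Φ U) x := by
  have hUU : Uᴴ * U = 1 := by
    have := (Matrix.mem_unitaryGroup_iff').1 hU
    rwa [Matrix.star_eq_conjTranspose] at this
  have hUU' : U * Uᴴ = 1 := by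
    have := (Matrix.mem_unitaryGroup_iff).1 hU
    rwa [Matrix.star_eq_conjTranspose] at this
  have hl : ∀ x : EuclideanSpace ℝ (Fin q × ι), di q (cj Φ Uᴴ) (di q (cj Φ U) x) = x := by
    intro x
    refine C1bx.ext_cp _ _ fun j => ?_
    rw [C1bx.cp_di, C1bx.cp_di, cj_cj h, hUU, cj_one h]
  have hr : ∀ x : EuclideanSpace ℝ (Fin q × ι), di q (cj Φ U) (di q (cj Φ Uᴴ) x) = x := by
    intro x
    refine C1bx.ext_cp _ _ fun j => ?_
    rw [C1bx.cp_di, C1bx.cp_di, cj_cj h, hUU', cj_one h]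
  have hn : ∀ x : EuclideanSpace ℝ (Fin q × ι), ‖di q (cj Φ U) x‖ = ‖x‖ := by
    intro x
    have h1 : ‖di q (cj Φ U) x‖ ^ 2 = ‖x‖ ^ 2 := by
      rw [C1bx.norm_cp, C1bx.norm_cp]
      refine Finset.sum_congr rfl fun j _ => ?_
      rw [C1bx.cp_di, norm_cj h U hU]
    exact (sq_eq_sq₀ (norm_nonneg _) (norm_nonneg _)).1 h1
  let e0 : EuclideanSpace ℝ (Fin q × ι) ≃ₗ[ℝ] EuclideanSpace ℝ (Fin q × ι) :=
    { di q (cj Φ U) with
      invFun := di q (cj Φ Uᴴ)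
      left_inv := hl
      right_inv := hr }
  let e : EuclideanSpace ℝ (Fin q × ι) ≃ₗᵢ[ℝ] EuclideanSpace ℝ (Fin q × ι) :=
    { e0 with norm_map' := hn }
  exact ⟨e, fun _ => rfl⟩

theorem di_mp (h : Fr Φ) (U : Matrix (Fin N) (Fin N) 𝕜)
    (hU : U ∈ Matrix.unitaryGroup (Fin N) 𝕜) :
    MeasurePreserving (di q (cj Φ U)) (volume : Measure (EuclideanSpace ℝ (Fin q × ι))) volume := by
  obtain ⟨g, hg⟩ := di_iso (q := q) h U hU
  have h1 : (g : EuclideanSpace ℝ (Fin q × ι) → EuclideanSpace ℝ (Fin q × ι)) =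
      di q (cj Φ U) := funext hg
  rw [← h1]
  exact g.measurePreserving

end Pool.Agent.H888R2.KT
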