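import Pool.Agent.H59.L.S8.H888R2.KT.Defs
import Pool.Agent.H59.L.S8.H888R2.KT.C1
import Pool.Agent.H59.L.S8.H888R2.KT.C1b
import Pool.Agent.H59.L.S8.H888R2.KC.L1

/-!
# KLS for tuples: C2, basic constructions of densities
-/

set_option autoImplicit false

namespace Pool.Agent.H888R2.KT

open MeasureTheory Set Matrix Pool.Agent.H888R2.KC
open scoped ENNReal InnerProductSpace
open Pool.Agent.H212R2.KLS (mu Bdd ev gr)

variable {𝕜 : Type} [RCLike 𝕜] {N q : ℕ} {ι : Type} [Fintype ι]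
  {Φ : EuclideanSpace ℝ ι →ₗ[ℝ] Matrix (Fin N) (Fin N) 𝕜}

namespace C2x

theorem map_mu (h : Fr Φ) {ρ : EuclideanSpace ℝ (Fin q × ι) → ℝ} (hρ : DT Φ ρ)
    (U : Matrix (Fin N) (Fin N) 𝕜) (hU : U ∈ Matrix.unitaryGroup (Fin N) 𝕜) :
    (mu ρ).map (di q (cj Φ U)) = mu ρ := by
  have hmp := di_mp (q := q) h U hU
  ext s hs
  rw [Measure.map_apply hmp.measurable hs]
  unfold mu
  rw [withDensity_apply _ (hmp.measurable hs), withDensity_apply _ hs,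
    ← hmp.setLIntegral_comp_preimage hs hρ.meas.ennreal_ofReal]
  simp only [hρ.inv U hU]

theorem indicator {ρ : EuclideanSpace ℝ (Fin q × ι) → ℝ} (hρ : DT Φ ρ)
    (B : Set (EuclideanSpace ℝ (Fin q × ι))) (hB : Convex ℝ B) (hBm : MeasurableSet B)
    (hBi : ∀ U ∈ Matrix.unitaryGroup (Fin N) 𝕜, ∀ x, di q (cj Φ U) x ∈ B ↔ x ∈ B) :
    DT Φ (B.indicator ρ) where
  nonneg x := indicator_nonneg (fun x _ => hρ.nonneg x) x
  meas := hρ.meas.indicator hBm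
  logc x y t ht0 ht1 := by
    have hn : 0 ≤ B.indicator ρ ((1 - t) • x + t • y) :=
      indicator_nonneg (fun x _ => hρ.nonneg x) _
    by_cases hx : x ∈ B
    · by_cases hy : y ∈ B
      · have hz : (1 - t) • x + t • y ∈ B := hB hx hy (by linarith) ht0.le (by ring)
        rw [indicator_of_mem hx, indicator_of_mem hy, indicator_of_mem hz]
        exact hρ.logc x y t ht0 ht1
      · rw [indicator_of_notMem hy, Real.zero_rpow ht0.ne', mul_zero]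
        exact hn
    · rw [indicator_of_notMem hx, Real.zero_rpow (by linarith : 1 - t ≠ 0), zero_mul]
      exact hn
  inv U hU x := by
    by_cases hx : x ∈ B
    · rw [indicator_of_mem hx, indicator_of_mem ((hBi U hU x).2 hx), hρ.inv U hU]
    · rw [indicator_of_notMem hx, indicator_of_notMem (fun h => hx ((hBi U hU x).1 h))]

theorem smul {ρ : EuclideanSpace ℝ (Fin q × ι) → ℝ} (h : DT Φ ρ) (c : ℝ) (hc : 0 ≤ c) :
    DT Φ (fun x => c * ρ x) where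
  nonneg x := mul_nonneg hc (h.nonneg x)
  meas := h.meas.const_mul c
  logc x y t ht0 ht1 := by
    have h1 := h.logc x y t ht0 ht1
    rw [Real.mul_rpow hc (h.nonneg x), Real.mul_rpow hc (h.nonneg y)]
    have h2 : c ^ (1 - t) * c ^ t ≤ c := by
      rcases hc.eq_or_lt with h3 | h3
      · rw [← h3, Real.zero_rpow ht0.ne']
        simp
      · rw [← Real.rpow_add h3]
        simp
    calc c ^ (1 - t) * ρ x ^ (1 - t) * (c ^ t * ρ y ^ t)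
        = (c ^ (1 - t) * c ^ t) * (ρ x ^ (1 - t) * ρ y ^ t) := by ring
      _ ≤ c * ρ ((1 - t) • x + t • y) := by
        apply mul_le_mul h2 h1 _ hc
        exact mul_nonneg (Real.rpow_nonneg (h.nonneg x) _) (Real.rpow_nonneg (h.nonneg y) _)
  inv g hg x := by rw [h.inv g hg x]

theorem tw_cont {κ : Type} [Fintype κ] {q : ℕ} (e : Fin q → EuclideanSpace ℝ κ) (K : ℝ)
    (τ : EuclideanSpace ℝ (Fin q)) : Continuous (tw e K τ) := by
  unfold tw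
  fun_prop

theorem tw_inv (h : Fr Φ) (U : Matrix (Fin N) (Fin N) 𝕜) (hU : U ∈ Matrix.unitaryGroup (Fin N) 𝕜)
    (K : ℝ) (τ : EuclideanSpace ℝ (Fin q)) (x : EuclideanSpace ℝ (Fin q × ι)) :
    tw (fun j => inj (tv Φ) j) K τ (di q (cj Φ U) x) = tw (fun j => inj (tv Φ) j) K τ x := by
  unfold tw
  have e1 : ∀ j : Fin q, ⟪inj (tv Φ) j, di q (cj Φ U) x⟫_ℝ = ⟪inj (tv Φ) j, x⟫_ℝ := by
    intro j
    rw [inner_inj, inner_inj, cp_di, inner_tv_cj h U hU]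
  simp only [e1]

theorem tilt (h : Fr Φ) {ρ : EuclideanSpace ℝ (Fin q × ι) → ℝ} (hρ : DT Φ ρ) (K : ℝ) (hK : 0 < K)
    (τ : EuclideanSpace ℝ (Fin q)) :
    DT Φ (fun x => ρ x * tw (fun j => inj (tv Φ) j) K τ x) where
  nonneg x := mul_nonneg (hρ.nonneg x) (Real.exp_pos _).le
  meas := hρ.meas.mul (tw_cont _ K τ).measurable
  logc x y t ht0 ht1 := by
    have h1 := hρ.logc x y t ht0 ht1
    unfold tw
    rw [Real.mul_rpow (hρ.nonneg x) (Real.exp_pos _).le,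
      Real.mul_rpow (hρ.nonneg y) (Real.exp_pos _).le, ← Real.exp_mul, ← Real.exp_mul]
    have e1 : ∀ j : Fin q, ⟪inj (tv Φ) j, (1 - t) • x + t • y⟫_ℝ =
        (1 - t) * ⟪inj (tv Φ) j, x⟫_ℝ + t * ⟪inj (tv Φ) j, y⟫_ℝ := by
      intro j
      rw [inner_add_right, inner_smul_right, inner_smul_right]
    simp only [e1]
    obtain ⟨a, ha⟩ : ∃ a : Fin q → ℝ, a = fun j => ⟪inj (tv Φ) j, x⟫_ℝ := ⟨_, rfl⟩
    obtain ⟨b, hb⟩ : ∃ b : Fin q → ℝ, b = fun j => ⟪inj (tv Φ) j, y⟫_ℝ := ⟨_, rfl⟩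
    have ha' : ∀ j, ⟪inj (tv Φ) j, x⟫_ℝ = a j := fun j => by rw [ha]
    have hb' : ∀ j, ⟪inj (tv Φ) j, y⟫_ℝ = b j := fun j => by rw [hb]
    simp only [ha', hb']
    have h3 : ∑ j, ((1 - t) * a j + t * b j - τ j) ^ 2 ≤
        (1 - t) * ∑ j, (a j - τ j) ^ 2 + t * ∑ j, (b j - τ j) ^ 2 := by
      rw [Finset.mul_sum, Finset.mul_sum, ← Finset.sum_add_distrib]
      refine Finset.sum_le_sum fun j _ => ?_
      have h4 : (1 - t) * (a j - τ j) ^ 2 + t * (b j - τ j) ^ 2 -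
          ((1 - t) * a j + t * b j - τ j) ^ 2 = t * (1 - t) * (a j - b j) ^ 2 := by ring
      have h5 : 0 ≤ t * (1 - t) * (a j - b j) ^ 2 :=
        mul_nonneg (mul_nonneg ht0.le (by linarith)) (sq_nonneg _)
      linarith
    have h2 : -((∑ j, (a j - τ j) ^ 2) / (2 * K)) * (1 - t) +
        -((∑ j, (b j - τ j) ^ 2) / (2 * K)) * t ≤
        -((∑ j, ((1 - t) * a j + t * b j - τ j) ^ 2) / (2 * K)) := by
      have h4 := div_le_div_of_nonneg_right h3 (by positivity : (0 : ℝ) ≤ 2 * K)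
      have h5 : ((1 - t) * ∑ j, (a j - τ j) ^ 2 + t * ∑ j, (b j - τ j) ^ 2) / (2 * K) =
          (∑ j, (a j - τ j) ^ 2) / (2 * K) * (1 - t) + (∑ j, (b j - τ j) ^ 2) / (2 * K) * t := by
        ring
      linarith
    calc ρ x ^ (1 - t) * Real.exp (-((∑ j, (a j - τ j) ^ 2) / (2 * K)) * (1 - t)) *
          (ρ y ^ t * Real.exp (-((∑ j, (b j - τ j) ^ 2) / (2 * K)) * t))
        = (ρ x ^ (1 - t) * ρ y ^ t) *
          Real.exp (-((∑ j, (a j - τ j) ^ 2) / (2 * K)) * (1 - t) +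
            -((∑ j, (b j - τ j) ^ 2) / (2 * K)) * t) := by
          rw [Real.exp_add]
          ring
      _ ≤ ρ ((1 - t) • x + t • y) *
          Real.exp (-((∑ j, ((1 - t) * a j + t * b j - τ j) ^ 2) / (2 * K))) :=
        mul_le_mul h1 (Real.exp_le_exp.2 h2) (Real.exp_pos _).le (hρ.nonneg _)
  inv U hU x := by rw [hρ.inv U hU, tw_inv h U hU]

theorem mid {ρ : EuclideanSpace ℝ (Fin q × ι) → ℝ} (hρ : DT Φ ρ)
    (x y : EuclideanSpace ℝ (Fin q × ι)) :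
    ρ x * ρ y ≤ (ρ ((1 / 2 : ℝ) • (x + y))) ^ 2 := by
  have h1 := hρ.logc x y (1 / 2) (by norm_num) (by norm_num)
  have e1 : (1 - (1 / 2 : ℝ)) = 1 / 2 := by norm_num
  rw [e1, ← smul_add, ← Real.sqrt_eq_rpow, ← Real.sqrt_eq_rpow,
    ← Real.sqrt_mul (hρ.nonneg x)] at h1
  have h2 := pow_le_pow_left₀ (Real.sqrt_nonneg _) h1 2
  rwa [Real.sq_sqrt (mul_nonneg (hρ.nonneg x) (hρ.nonneg y))] at h2

theorem tilt_st {ρ : EuclideanSpace ℝ (Fin q × ι) → ℝ} (hρ : DT Φ ρ) (K : ℝ) (hK : 0 < K)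
    (τ : EuclideanSpace ℝ (Fin q)) :
    St (fun j : Fin q => inj (tv Φ) j) K (fun x => ρ x * tw (fun j => inj (tv Φ) j) K τ x) := by
  intro x y
  have h1 := mid hρ x y
  unfold tw
  have e1 : ∀ j : Fin q, ⟪inj (tv Φ) j, (1 / 2 : ℝ) • (x + y)⟫_ℝ =
      (1 / 2) * (⟪inj (tv Φ) j, x⟫_ℝ + ⟪inj (tv Φ) j, y⟫_ℝ) := by
    intro j
    rw [inner_smul_right, inner_add_right]
  have e2 : ∀ j : Fin q, ⟪inj (tv Φ) j, x - y⟫_ℝ =
      ⟪inj (tv Φ) j, x⟫_ℝ - ⟪inj (tv Φ) j, y⟫_ℝ := fun j => inner_sub_right _ _ _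
  simp only [e1, e2]
  obtain ⟨a, ha⟩ : ∃ a : Fin q → ℝ, a = fun j => ⟪inj (tv Φ) j, x⟫_ℝ := ⟨_, rfl⟩
  obtain ⟨b, hb⟩ : ∃ b : Fin q → ℝ, b = fun j => ⟪inj (tv Φ) j, y⟫_ℝ := ⟨_, rfl⟩
  have ha' : ∀ j, ⟪inj (tv Φ) j, x⟫_ℝ = a j := fun j => by rw [ha]
  have hb' : ∀ j, ⟪inj (tv Φ) j, y⟫_ℝ = b j := fun j => by rw [hb]
  simp only [ha', hb']
  have e0 : ∑ j, (a j - τ j) ^ 2 + ∑ j, (b j - τ j) ^ 2 =
      2 * ∑ j, (1 / 2 * (a j + b j) - τ j) ^ 2 + (1 / 2) * ∑ j, (a j - b j) ^ 2 := by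
    rw [Finset.mul_sum, Finset.mul_sum, ← Finset.sum_add_distrib, ← Finset.sum_add_distrib]
    refine Finset.sum_congr rfl fun j _ => ?_
    ring
  obtain ⟨A, hA⟩ : ∃ A : ℝ, A = ∑ j, (a j - τ j) ^ 2 := ⟨_, rfl⟩
  obtain ⟨B, hB⟩ : ∃ B : ℝ, B = ∑ j, (b j - τ j) ^ 2 := ⟨_, rfl⟩
  obtain ⟨M, hM⟩ : ∃ M : ℝ, M = ∑ j, (1 / 2 * (a j + b j) - τ j) ^ 2 := ⟨_, rfl⟩
  obtain ⟨D, hD⟩ : ∃ D : ℝ, D = ∑ j, (a j - b j) ^ 2 := ⟨_, rfl⟩
  rw [← hA, ← hB, ← hM, ← hD] at e0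
  rw [← hA, ← hB, ← hM, ← hD]
  have e3 : Real.exp (-(A / (2 * K))) * Real.exp (-(B / (2 * K))) =
      Real.exp (-(M / (2 * K))) ^ 2 * Real.exp (-(D / (4 * K))) := by
    rw [← Real.exp_add, ← Real.exp_nat_mul, ← Real.exp_add]
    congr 1
    have e4 : A = 2 * M + 1 / 2 * D - B := by linarith
    rw [e4]
    push_cast
    field_simp
    ring
  calc ρ x * Real.exp (-(A / (2 * K))) * (ρ y * Real.exp (-(B / (2 * K))))
      = (ρ x * ρ y) * (Real.exp (-(A / (2 * K))) * Real.exp (-(B / (2 * K)))) := by ring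
    _ = (ρ x * ρ y) * (Real.exp (-(M / (2 * K))) ^ 2 * Real.exp (-(D / (4 * K)))) := by rw [e3]
    _ ≤ (ρ ((1 / 2 : ℝ) • (x + y))) ^ 2 * (Real.exp (-(M / (2 * K))) ^ 2 *
        Real.exp (-(D / (4 * K)))) := mul_le_mul_of_nonneg_right h1 (by positivity)
    _ = _ := by ring

theorem norm_di (h : Fr Φ) (U : Matrix (Fin N) (Fin N) 𝕜) (hU : U ∈ Matrix.unitaryGroup (Fin N) 𝕜)
    (x : EuclideanSpace ℝ (Fin q × ι)) : ‖di q (cj Φ U) x‖ = ‖x‖ := by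
  have h1 : ‖di q (cj Φ U) x‖ ^ 2 = ‖x‖ ^ 2 := by
    rw [norm_cp, norm_cp]
    refine Finset.sum_congr rfl fun j _ => ?_
    rw [cp_di, norm_cj h U hU]
  exact (pow_left_inj₀ (norm_nonneg _) (norm_nonneg _) (by norm_num)).mp h1

end C2x

open C2x in
theorem DT.basic (h : Fr Φ) (hN : 1 ≤ N) {ρ : EuclideanSpace ℝ (Fin q × ι) → ℝ} (hρ : DT Φ ρ) :
    (∀ U ∈ Matrix.unitaryGroup (Fin N) 𝕜, (mu ρ).map (di q (cj Φ U)) = mu ρ) ∧
    (∀ r, DT Φ ({x | ∀ j, OpL r (Φ (cp j x))}.indicator ρ)) ∧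
    (∀ r, DT Φ ({x | ‖x‖ ≤ r}.indicator ρ)) ∧
    (∀ c, 0 ≤ c → DT Φ (fun x => c * ρ x)) ∧
    (∀ K : ℝ, 0 < K → ∀ τ : EuclideanSpace ℝ (Fin q),
      DT Φ (fun x => ρ x * tw (fun j => inj (tv Φ) j) K τ x) ∧
      St (fun j : Fin q => inj (tv Φ) j) K (fun x => ρ x * tw (fun j => inj (tv Φ) j) K τ x)) := by
  refine ⟨map_mu h hρ, fun r => ?_, fun r => ?_, smul hρ, fun K hK τ =>
    ⟨tilt h hρ K hK τ, tilt_st hρ K hK τ⟩⟩
  · have hset : {x : EuclideanSpace ℝ (Fin q × ι) | ∀ j, OpL r (Φ (cp j x))} =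
        ⋂ j : Fin q, (cp j) ⁻¹' {x : EuclideanSpace ℝ ι | OpL r (Φ x)} := by
      ext x
      simp only [mem_setOf_eq, mem_iInter, mem_preimage]
    refine C2x.indicator hρ _ ?_ ?_ (fun U hU x => ?_)
    · rw [hset]
      exact convex_iInter fun j => (OpL_convex r).linear_preimage (cp j)
    · rw [hset]
      refine MeasurableSet.iInter fun j => ?_
      exact ((OpL_closed r).preimage
        (LinearMap.continuous_of_finiteDimensional (cp j))).measurableSet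
    · show (∀ j, OpL r (Φ (cp j (di q (cj Φ U) x)))) ↔ ∀ j, OpL r (Φ (cp j x))
      refine forall_congr' fun j => ?_
      rw [cp_di]
      exact OpL_cj h U hU r (cp j x)
  · refine C2x.indicator hρ _ ?_ ?_ (fun U hU x => ?_)
    · have : {x : EuclideanSpace ℝ (Fin q × ι) | ‖x‖ ≤ r} = Metric.closedBall 0 r := by
        ext x
        simp
      rw [this]
      exact convex_closedBall 0 r
    · exact (isClosed_le continuous_norm continuous_const).measurableSet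
    · show ‖di q (cj Φ U) x‖ ≤ r ↔ ‖x‖ ≤ r
      rw [norm_di h U hU]

end Pool.Agent.H888R2.KT
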