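import Pool.Agent.H59.L.S8.H888R2.KT.Defs
import Pool.Agent.H59.L.S8.H888R2.KT.C1
import Pool.Agent.H59.L.S8.H888R2.KC.A7
import Pool.Agent.H59.L.S8.H888R2.KC.F4
import Pool.Agent.H59.L.S8.H888R2.KC.F2
import Pool.Agent.H59.L.S8.H888R2.KC.F1

/-!
# C4: the bound for the angular derivatives of tuples
-/

set_option autoImplicit false

namespace Pool.Agent.H888R2.KT

open MeasureTheory Set Matrix Pool.Agent.H888R2.KC
open scoped ENNReal InnerProductSpace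
open Pool.Agent.H212R2.KLS (mu Bdd ev gr)

namespace C4x

variable {𝕜 : Type} [RCLike 𝕜] {N q : ℕ}

/-- Cauchy-Schwarz for the sum of `q` matrices -/
theorem ip_sum_le (T : Fin q → Matrix (Fin N) (Fin N) 𝕜) :
    ip (∑ j, T j) (∑ j, T j) ≤ q * ∑ j, ip (T j) (T j) := by
  have h1 : ∀ A : Matrix (Fin N) (Fin N) 𝕜, ip A A = ∑ a, ∑ b, ‖A a b‖ ^ 2 := A7x.ip_self
  rw [h1]
  simp only [h1]
  have h2 : (q : ℝ) * ∑ j, ∑ a, ∑ b, ‖T j a b‖ ^ 2 = ∑ a, ∑ b, (q : ℝ) * ∑ j, ‖T j a b‖ ^ 2 := by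
    rw [Finset.sum_comm, Finset.mul_sum]
    refine Finset.sum_congr rfl fun a _ => ?_
    rw [Finset.sum_comm, Finset.mul_sum]
  rw [h2]
  refine Finset.sum_le_sum fun a _ => Finset.sum_le_sum fun b _ => ?_
  rw [Matrix.sum_apply]
  have h3 : ‖∑ j, T j a b‖ ≤ ∑ j, ‖T j a b‖ := norm_sum_le _ _
  have h4 : (∑ j, ‖T j a b‖) ^ 2 ≤ (q : ℝ) * ∑ j, ‖T j a b‖ ^ 2 := by
    have h5 := sq_sum_le_card_mul_sum_sq (s := (Finset.univ : Finset (Fin q)))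
      (f := fun j => ‖T j a b‖)
    rwa [Finset.card_univ, Fintype.card_fin] at h5
  exact (pow_le_pow_left₀ (norm_nonneg _) h3 2).trans h4

end C4x

section tuples

variable {𝕜 : Type} [RCLike 𝕜] {N q : ℕ} {ι : Type} [Fintype ι]
  {Φ : EuclideanSpace ℝ ι →ₗ[ℝ] Matrix (Fin N) (Fin N) 𝕜}

theorem lam (h : Fr Φ) (r : ℝ) (hr : 0 ≤ r) (x : EuclideanSpace ℝ (Fin q × ι))
    (hx : ∀ j, OpL r (Φ (cp j x))) (w : EuclideanSpace ℝ (Fin q × ι)) :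
    ∑ k, ⟪w, di q (ad Φ (Km 𝕜 k)) x⟫_ℝ ^ 2 ≤ 4 * r ^ 2 * q * ‖w‖ ^ 2 := by
  obtain ⟨T, hT⟩ : ∃ T : Fin q → Matrix (Fin N) (Fin N) 𝕜,
      T = fun j => Φ (cp j w) * Φ (cp j x) - Φ (cp j x) * Φ (cp j w) := ⟨_, rfl⟩
  have h1 : ∀ k, ⟪w, di q (ad Φ (Km 𝕜 k)) x⟫_ℝ = ip (Km 𝕜 k) (∑ j, T j) := by
    intro k
    rw [inner_cp, F4x.ip_sum]
    refine Finset.sum_congr rfl fun j _ => ?_
    rw [cp_di, inner_Phi h, Phi_ad h _ (Km_skew k),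
      A7x.ip_comm_eq _ _ _ (h.herm _) (Km_skew k), hT]
  have h2 : ∀ j, (T j)ᴴ = -(T j) := by
    intro j
    rw [hT]
    show (Φ (cp j w) * Φ (cp j x) - Φ (cp j x) * Φ (cp j w))ᴴ =
      -(Φ (cp j w) * Φ (cp j x) - Φ (cp j x) * Φ (cp j w))
    rw [Matrix.conjTranspose_sub, Matrix.conjTranspose_mul, Matrix.conjTranspose_mul, h.herm,
      h.herm, neg_sub]
  have h3 : (∑ j, T j)ᴴ = -(∑ j, T j) := by
    rw [Matrix.conjTranspose_sum, ← Finset.sum_neg_distrib]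
    exact Finset.sum_congr rfl fun j _ => h2 j
  simp only [h1]
  rw [Km_parseval _ h3]
  refine (C4x.ip_sum_le T).trans ?_
  have h4 : ∑ j, ip (T j) (T j) ≤ ∑ j, 4 * r ^ 2 * ‖cp j w‖ ^ 2 := by
    refine Finset.sum_le_sum fun j _ => ?_
    rw [hT, ← h.iso]
    exact A7x.frob_comm _ _ (h.herm _) (h.herm _) r hr (hx j)
  rw [← Finset.mul_sum, ← norm_cp] at h4
  calc (q : ℝ) * ∑ j, ip (T j) (T j) ≤ q * (4 * r ^ 2 * ‖w‖ ^ 2) :=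
        mul_le_mul_of_nonneg_left h4 (Nat.cast_nonneg q)
    _ = 4 * r ^ 2 * q * ‖w‖ ^ 2 := by ring

end tuples

end Pool.Agent.H888R2.KT
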