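import Pool.Agent.H59.L.S8.H888R2.KT.Defs
import Pool.Agent.H59.L.S8.H888R2.KC.A5

/-!
# C6a: invariance of the measure implies vanishing integrals of the derivations (tuples)
-/

set_option autoImplicit false

namespace Pool.Agent.H888R2.KT

open MeasureTheory Set Matrix Pool.Agent.H888R2.KC
open scoped ENNReal InnerProductSpace
open Pool.Agent.H212R2.KLS (mu Bdd ev gr)

variable {𝕜 : Type} [RCLike 𝕜] {N q : ℕ} {ι : Type} [Fintype ι]
  {Φ : EuclideanSpace ℝ ι →ₗ[ℝ] Matrix (Fin N) (Fin N) 𝕜}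

namespace C6ax

theorem cp_di' (A : EuclideanSpace ℝ ι →ₗ[ℝ] EuclideanSpace ℝ ι)
    (x : EuclideanSpace ℝ (Fin q × ι)) (j : Fin q) : cp j (di q A x) = A (cp j x) := rfl

theorem ext_cp' (x y : EuclideanSpace ℝ (Fin q × ι)) (h : ∀ j, cp j x = cp j y) : x = y := by
  ext p
  exact congrArg (fun z : EuclideanSpace ℝ ι => z p.2) (h p.1)

theorem norm_cp' (x : EuclideanSpace ℝ (Fin q × ι)) : ‖x‖ ^ 2 = ∑ j, ‖cp j x‖ ^ 2 := by
  rw [EuclideanSpace.norm_sq_eq, Fintype.sum_prod_type]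
  apply Finset.sum_congr rfl
  intro j _
  rw [EuclideanSpace.norm_sq_eq]
  rfl

theorem di_di (A B : EuclideanSpace ℝ ι →ₗ[ℝ] EuclideanSpace ℝ ι)
    (x : EuclideanSpace ℝ (Fin q × ι)) (j : Fin q) :
    cp j (di q A (di q B x)) = A (B (cp j x)) := by
  rw [cp_di', cp_di']

theorem dcj_one (h : Fr Φ) (x : EuclideanSpace ℝ (Fin q × ι)) : di q (cj Φ 1) x = x := by
  apply ext_cp'
  intro j
  rw [cp_di', cj_one h]

theorem dcj_dcj (h : Fr Φ) (U W : Matrix (Fin N) (Fin N) 𝕜) (x : EuclideanSpace ℝ (Fin q × ι)) :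
    di q (cj Φ U) (di q (cj Φ W) x) = di q (cj Φ (U * W)) x := by
  apply ext_cp'
  intro j
  rw [di_di, cp_di', cj_cj h]

theorem norm_dcj (h : Fr Φ) (U : Matrix (Fin N) (Fin N) 𝕜)
    (hU : U ∈ Matrix.unitaryGroup (Fin N) 𝕜) (x : EuclideanSpace ℝ (Fin q × ι)) :
    ‖di q (cj Φ U) x‖ = ‖x‖ := by
  have h1 : ‖di q (cj Φ U) x‖ ^ 2 = ‖x‖ ^ 2 := by
    rw [norm_cp', norm_cp']
    apply Finset.sum_congr rfl
    intro j _
    rw [cp_di', norm_cj h U hU]
  exact (sq_eq_sq₀ (norm_nonneg _) (norm_nonneg _)).1 h1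

/-- the inclusion of the component `j` -/
noncomputable def ij (j : Fin q) : EuclideanSpace ℝ ι →ₗ[ℝ] EuclideanSpace ℝ (Fin q × ι) where
  toFun v := WithLp.toLp 2 fun p => if p.1 = j then v p.2 else 0
  map_add' x y := by
    ext p
    by_cases h : p.1 = j
    · simp [h]
    · simp [h]
  map_smul' c x := by
    ext p
    by_cases h : p.1 = j
    · simp [h]
    · simp [h]

theorem di_eq_sum (A : EuclideanSpace ℝ ι →ₗ[ℝ] EuclideanSpace ℝ ι)
    (x : EuclideanSpace ℝ (Fin q × ι)) : di q A x = ∑ j, ij j (A (cp j x)) := by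
  ext p
  have h1 : (∑ j, ij j (A (cp j x)) : EuclideanSpace ℝ (Fin q × ι)) p =
      ∑ j, (ij j (A (cp j x)) : EuclideanSpace ℝ (Fin q × ι)) p := by
    simp
  rw [h1]
  have h2 : ∀ j, (ij j (A (cp j x)) : EuclideanSpace ℝ (Fin q × ι)) p =
      if p.1 = j then (A (cp j x)) p.2 else 0 := fun j => rfl
  simp only [h2]
  rw [Finset.sum_ite_eq Finset.univ p.1 (fun j => (A (cp j x)) p.2), if_pos (Finset.mem_univ _)]
  rfl

theorem continuous_dcj (U : Matrix (Fin N) (Fin N) 𝕜) : Continuous (di q (cj Φ U)) :=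
  LinearMap.continuous_of_finiteDimensional _

end C6ax

open C6ax Pool.Agent.H888R2.KC.A5x in
theorem dl_integralq (h : Fr Φ) (μ : Measure (EuclideanSpace ℝ (Fin q × ι))) [IsFiniteMeasure μ]
    (hinv : ∀ U ∈ Matrix.unitaryGroup (Fin N) 𝕜, μ.map (di q (cj Φ U)) = μ)
    (hb : ∃ R, μ (Metric.closedBall 0 R)ᶜ = 0) (K : Matrix (Fin N) (Fin N) 𝕜) (hK : Kᴴ = -K)
    (p : MvPolynomial (Fin q × ι) ℝ) : ∫ x, ev (dl (di q (ad Φ K)) p) x ∂μ = 0 := by
  obtain ⟨U, hU, hU0, hUadd, hUd⟩ := exists_path (ι := Fin q × ι) K hK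
  obtain ⟨R, hR⟩ := hb
  have hball : ∀ᵐ x ∂μ, x ∈ Metric.closedBall (0 : EuclideanSpace ℝ (Fin q × ι)) R := by
    rw [ae_iff]
    exact hR
  have hd0 : ∀ y, HasDerivAt (fun t => ev p (di q (cj Φ (U t)) y))
      (ev (dl (di q (ad Φ K)) p) y) 0 := by
    intro y
    have h1 : HasDerivAt (fun t => di q (cj Φ (U t)) y) (di q (ad Φ K) y) 0 := by
      have h4 : (fun t => di q (cj Φ (U t)) y) = fun t => ∑ j, ij j (cj Φ (U t) (cp j y)) := by
        funext t
        exact di_eq_sum _ _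
      rw [h4, di_eq_sum]
      apply HasDerivAt.fun_sum
      intro j _
      exact hUd (Φ (cp j y)) (ij j ∘ₗ ps Φ)
    have h2 : HasFDerivAt (ev p) (fderiv ℝ (ev p) (di q (cj Φ (U 0)) y)) (di q (cj Φ (U 0)) y) :=
      (differentiable_ev p _).hasFDerivAt
    have h3 := h2.comp_hasDerivAt (0 : ℝ) h1
    rw [hU0, dcj_one h y, ← ev_dl] at h3
    exact h3
  have hd : ∀ x t, HasDerivAt (fun τ => ev p (di q (cj Φ (U τ)) x))
      (ev (dl (di q (ad Φ K)) p) (di q (cj Φ (U t)) x)) t := by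
    intro x t
    have h1 : HasDerivAt (fun s => ev p (di q (cj Φ (U s)) (di q (cj Φ (U t)) x)))
        (ev (dl (di q (ad Φ K)) p) (di q (cj Φ (U t)) x)) (t - t) := by
      rw [sub_self]
      exact hd0 _
    have h2 := h1.comp_sub_const t t
    have h3 : (fun τ => ev p (di q (cj Φ (U τ)) x)) =
        fun τ => ev p (di q (cj Φ (U (τ - t))) (di q (cj Φ (U t)) x)) := by
      funext τ
      rw [dcj_dcj h, ← hUadd, sub_add_cancel]
    rw [h3]
    exact h2
  have hcont : ∀ r : MvPolynomial (Fin q × ι) ℝ, Continuous (ev r) := fun r =>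
    (differentiable_ev r).continuous
  obtain ⟨C, hC⟩ :=
    (isCompact_closedBall (0 : EuclideanSpace ℝ (Fin q × ι)) R).exists_bound_of_continuousOn
      (hcont (dl (di q (ad Φ K)) p)).continuousOn
  obtain ⟨C', hC'⟩ :=
    (isCompact_closedBall (0 : EuclideanSpace ℝ (Fin q × ι)) R).exists_bound_of_continuousOn
      (hcont p).continuousOn
  have hmem : ∀ x ∈ Metric.closedBall (0 : EuclideanSpace ℝ (Fin q × ι)) R, ∀ t,
      di q (cj Φ (U t)) x ∈ Metric.closedBall (0 : EuclideanSpace ℝ (Fin q × ι)) R := by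
    intro x hx t
    rw [mem_closedBall_zero_iff] at hx ⊢
    rw [norm_dcj h (U t) (hU t)]
    exact hx
  have hmain := hasDerivAt_integral_of_dominated_loc_of_deriv_le (μ := μ)
    (F := fun t x => ev p (di q (cj Φ (U t)) x))
    (F' := fun t x => ev (dl (di q (ad Φ K)) p) (di q (cj Φ (U t)) x))
    (x₀ := (0 : ℝ)) (s := Set.univ) (bound := fun _ => C) Filter.univ_mem
    (Filter.Eventually.of_forall fun t =>
      ((hcont p).comp (continuous_dcj (U t))).aestronglyMeasurable)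
    (Integrable.of_bound ((hcont p).comp (continuous_dcj (U 0))).aestronglyMeasurable C'
      (hball.mono fun x hx => hC' _ (hmem x hx 0)))
    ((hcont _).comp (continuous_dcj (U 0))).aestronglyMeasurable
    (hball.mono fun x hx t _ => hC _ (hmem x hx t))
    (integrable_const C)
    (Filter.Eventually.of_forall fun x t _ => hd x t)
  have h2 := hmain.2
  have h3 : (fun t : ℝ => ∫ x, ev p (di q (cj Φ (U t)) x) ∂μ) = fun _ => ∫ x, ev p x ∂μ := by
    funext t
    have h4 := integral_map (μ := μ) (φ := di q (cj Φ (U t))) (continuous_dcj (U t)).aemeasurable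
      (f := ev p) (hcont p).aestronglyMeasurable
    rw [hinv (U t) (hU t)] at h4
    exact h4.symm
  rw [h3] at h2
  have h5 := h2.unique (hasDerivAt_const (0 : ℝ) (∫ x, ev p x ∂μ))
  have h6 : ∀ x, di q (cj Φ (U 0)) x = x := fun x => by rw [hU0, dcj_one h x]
  simp only [h6] at h5
  exact h5

end Pool.Agent.H888R2.KT
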