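import Pool.Agent.H59.L.S8.H888R2.KT.Defs
import Pool.Agent.H59.L.S8.H888R2.KC.R2
import Pool.Agent.H59.L.S8.H212R2.KLS.R4

/-! # N2: the Poincare inequality with the radius of the support -/

set_option autoImplicit false

namespace Pool.Agent.H888R2.KT

open MeasureTheory Set Matrix Pool.Agent.H888R2.KC Pool.Agent.H888R2.KT
open scoped ENNReal InnerProductSpace
open Pool.Agent.H212R2.KLS (mu Bdd ev gr)

namespace N2x

theorem int_mu {κ : Type} [Fintype κ] {ρ : EuclideanSpace ℝ κ → ℝ} (h0 : ∀ x, 0 ≤ ρ x)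
    (hm : Measurable ρ) (g : EuclideanSpace ℝ κ → ℝ) :
    ∫ x, g x ∂(mu ρ) = ∫ x, g x * ρ x := by
  unfold mu
  have e : (fun x : EuclideanSpace ℝ κ => ENNReal.ofReal (ρ x)) =
      fun x => ((Real.toNNReal (ρ x) : NNReal) : ℝ≥0∞) := rfl
  rw [e, integral_withDensity_eq_integral_smul hm.real_toNNReal]
  refine integral_congr_ae (Filter.Eventually.of_forall fun x => ?_)
  simp only
  rw [NNReal.smul_def, Real.coe_toNNReal _ (h0 x), smul_eq_mul, mul_comm]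

theorem mid_sq {κ : Type} [Fintype κ] {ρ : EuclideanSpace ℝ κ → ℝ} (h0 : ∀ x, 0 ≤ ρ x)
    (hlc : ∀ x y : EuclideanSpace ℝ κ, ∀ t : ℝ, 0 < t → t < 1 →
      ρ x ^ (1 - t) * ρ y ^ t ≤ ρ ((1 - t) • x + t • y)) (x y : EuclideanSpace ℝ κ) :
    ρ x * ρ y ≤ (ρ ((1 / 2 : ℝ) • (x + y))) ^ 2 := by
  have h1 := hlc x y (1 / 2) (by norm_num) (by norm_num)
  have e1 : (1 - 1 / 2 : ℝ) = 1 / 2 := by norm_num
  rw [e1, ← smul_add] at h1
  have h2 : ρ x * ρ y = (ρ x ^ (1 / 2 : ℝ) * ρ y ^ (1 / 2 : ℝ)) ^ 2 := by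
    rw [mul_pow, ← Real.sqrt_eq_rpow, ← Real.sqrt_eq_rpow, Real.sq_sqrt (h0 x), Real.sq_sqrt (h0 y)]
  rw [h2]
  exact pow_le_pow_left₀ (mul_nonneg (Real.rpow_nonneg (h0 x) _) (Real.rpow_nonneg (h0 y) _)) h1 2

end N2x

open N2x

theorem ball_poincare {κ : Type} [Fintype κ] {ρ : EuclideanSpace ℝ κ → ℝ}
    (hρ : LC ρ) (R : ℝ) (hR : 0 < R) (hs : ∀ x, R < ‖x‖ → ρ x = 0)
    (f : EuclideanSpace ℝ κ → ℝ) (hf : ContDiff ℝ 1 f) :
    ∃ c : ℝ, ∫ x, (f x - c) ^ 2 ∂(mu ρ) ≤ 2 * R ^ 2 * ∫ x, ‖fderiv ℝ f x‖ ^ 2 ∂(mu ρ) := by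
  obtain ⟨B, hB⟩ := bdd_of_finite ρ hρ.nonneg hρ.meas hρ.logc hρ.fin hρ.ne
  have hB0 : 0 ≤ B := (hρ.nonneg 0).trans (hB 0)
  obtain ⟨w, hw⟩ : ∃ w : EuclideanSpace ℝ κ → ℝ,
      ∀ x, w x = ρ x * Real.exp (-(‖x‖ ^ 2 / (2 * R ^ 2))) := ⟨_, fun _ => rfl⟩
  have hR2 : 0 < R ^ 2 := by positivity
  have hw0 : ∀ x, 0 ≤ w x := fun x => by
    rw [hw]; exact mul_nonneg (hρ.nonneg x) (Real.exp_pos _).le
  have hexp1 : ∀ x : EuclideanSpace ℝ κ, Real.exp (-(‖x‖ ^ 2 / (2 * R ^ 2))) ≤ 1 := fun x => by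
    rw [Real.exp_le_one_iff]
    have : 0 ≤ ‖x‖ ^ 2 / (2 * R ^ 2) := by positivity
    linarith
  have hwρ : ∀ x, w x ≤ ρ x := fun x => by
    rw [hw]
    exact mul_le_of_le_one_right (hρ.nonneg x) (hexp1 x)
  have hwm : Measurable w := by
    have : w = fun x => ρ x * Real.exp (-(‖x‖ ^ 2 / (2 * R ^ 2))) := funext hw
    rw [this]
    exact hρ.meas.mul (by fun_prop)
  have hwz : ∀ x, R < ‖x‖ → w x = 0 := fun x hx => by rw [hw, hs x hx, zero_mul]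
  have hρw : ∀ x, ρ x ≤ 2 * w x := by
    intro x
    by_cases hx : R < ‖x‖
    · rw [hs x hx, hwz x hx]; norm_num
    · push Not at hx
      rw [hw]
      have h1 : ‖x‖ ^ 2 / (2 * R ^ 2) ≤ 1 / 2 := by
        rw [div_le_iff₀ (by positivity)]
        have : ‖x‖ ^ 2 ≤ R ^ 2 := pow_le_pow_left₀ (norm_nonneg x) hx 2
        linarith
      have h2 : (1 / 2 : ℝ) ≤ Real.exp (-(‖x‖ ^ 2 / (2 * R ^ 2))) := by
        have h3 := Real.add_one_le_exp (-(‖x‖ ^ 2 / (2 * R ^ 2)))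
        linarith
      have h4 := hρ.nonneg x
      nlinarith
  obtain ⟨c, hc⟩ := Pool.Agent.H212R2.KLS.poincare_of_strong (volume : Measure (EuclideanSpace ℝ κ))
    w hw0 hwm ⟨B, fun x => (hwρ x).trans (hB x)⟩ ⟨R, hwz⟩ (R ^ 2)⁻¹ (by positivity) (by
      intro x y
      rw [hw x, hw y, hw]
      have h1 := mid_sq hρ.nonneg hρ.logc x y
      have h2 : Real.exp (-(‖x‖ ^ 2 / (2 * R ^ 2))) * Real.exp (-(‖y‖ ^ 2 / (2 * R ^ 2))) =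
          Real.exp (-(‖(1 / 2 : ℝ) • (x + y)‖ ^ 2 / (2 * R ^ 2))) ^ 2 *
          Real.exp (-((R ^ 2)⁻¹ / 4 * ‖x - y‖ ^ 2)) := by
        rw [← Real.exp_nat_mul, ← Real.exp_add, ← Real.exp_add]
        congr 1
        have h3 : ‖(1 / 2 : ℝ) • (x + y)‖ ^ 2 = (‖x‖ ^ 2 + ‖y‖ ^ 2) / 2 - ‖x - y‖ ^ 2 / 4 := by
          rw [norm_smul, mul_pow, Real.norm_eq_abs, sq_abs]
          have h4 := parallelogram_law_with_norm ℝ x y
          nlinarith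
        rw [h3]
        push_cast
        field_simp
        ring
      calc ρ x * Real.exp (-(‖x‖ ^ 2 / (2 * R ^ 2))) * (ρ y * Real.exp (-(‖y‖ ^ 2 / (2 * R ^ 2))))
          = (ρ x * ρ y) * (Real.exp (-(‖x‖ ^ 2 / (2 * R ^ 2))) *
              Real.exp (-(‖y‖ ^ 2 / (2 * R ^ 2)))) := by ring
        _ ≤ (ρ ((1 / 2 : ℝ) • (x + y))) ^ 2 * (Real.exp (-(‖x‖ ^ 2 / (2 * R ^ 2))) *
              Real.exp (-(‖y‖ ^ 2 / (2 * R ^ 2)))) := mul_le_mul_of_nonneg_right h1 (by positivity)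
        _ = _ := by rw [h2]; ring) f hf
  refine ⟨c, ?_⟩
  rw [int_mu hρ.nonneg hρ.meas, int_mu hρ.nonneg hρ.meas]
  rw [inv_inv] at hc
  have hfd : Continuous (fderiv ℝ f) := hf.continuous_fderiv (by norm_num)
  have Iw : ∀ {φ : EuclideanSpace ℝ κ → ℝ}, Continuous φ → Integrable (fun x => φ x * w x) :=
    fun hφ => Pool.Agent.H212R2.KLS.R4aux.intg hwm hw0 ⟨B, fun x => (hwρ x).trans (hB x)⟩ hwz hφ
  have Iρ : ∀ {φ : EuclideanSpace ℝ κ → ℝ}, Continuous φ → Integrable (fun x => φ x * ρ x) :=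
    fun hφ => Pool.Agent.H212R2.KLS.R4aux.intg hρ.meas hρ.nonneg ⟨B, hB⟩ hs hφ
  have c1 : Continuous fun x => (f x - c) ^ 2 := (hf.continuous.sub continuous_const).pow 2
  have c2 : Continuous fun x => ‖fderiv ℝ f x‖ ^ 2 := hfd.norm.pow 2
  calc ∫ x, (f x - c) ^ 2 * ρ x ≤ ∫ x, 2 * ((f x - c) ^ 2 * w x) := by
        refine integral_mono (Iρ c1) ((Iw c1).const_mul 2) fun x => ?_
        have h1 := hρw x
        have h2 : 0 ≤ (f x - c) ^ 2 := sq_nonneg _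
        simp only
        nlinarith
    _ = 2 * ∫ x, (f x - c) ^ 2 * w x := integral_const_mul _ _
    _ ≤ 2 * (R ^ 2 * ∫ x, ‖fderiv ℝ f x‖ ^ 2 * w x) := by linarith
    _ ≤ 2 * (R ^ 2 * ∫ x, ‖fderiv ℝ f x‖ ^ 2 * ρ x) := by
        have h3 : ∫ x, ‖fderiv ℝ f x‖ ^ 2 * w x ≤ ∫ x, ‖fderiv ℝ f x‖ ^ 2 * ρ x :=
          integral_mono (Iw c2) (Iρ c2) fun x => mul_le_mul_of_nonneg_left (hwρ x) (sq_nonneg _)
        have h4 := mul_le_mul_of_nonneg_left h3 hR2.le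
        linarith
    _ = _ := by ring

end Pool.Agent.H888R2.KT
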