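import Pool.Agent.H59.L.S8.H888R2.KT.Defs
import Pool.Agent.H59.L.S8.H212R2.KLS.T1

/-! # V1: Borell's lemma for balls -/

set_option autoImplicit false

namespace Pool.Agent.H888R2.KT

open MeasureTheory Set Matrix Pool.Agent.H888R2.KC
open scoped ENNReal InnerProductSpace
open Pool.Agent.H212R2.KLS (mu Bdd ev gr)

namespace V1x

variable {F : Type} [NormedAddCommGroup F] [InnerProductSpace ℝ F]
    [FiniteDimensional ℝ F] [MeasurableSpace F] [BorelSpace F]

theorem mu_apply (ρ : F → ℝ) (S : Set F) (hS : MeasurableSet S) :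
    mu ρ S = ∫⁻ x, S.indicator (fun x => ENNReal.ofReal (ρ x)) x := by
  unfold mu
  rw [withDensity_apply _ hS, lintegral_indicator hS]

theorem pl (ρ : F → ℝ) (h0 : ∀ x, 0 ≤ ρ x) (hm : Measurable ρ)
    (hlc : ∀ x y : F, ∀ t : ℝ, 0 < t → t < 1 →
      ρ x ^ (1 - t) * ρ y ^ t ≤ ρ ((1 - t) • x + t • y))
    (S T U : Set F) (hS : MeasurableSet S) (hT : MeasurableSet T) (hU : MeasurableSet U)
    (t : ℝ) (ht0 : 0 < t) (ht1 : t < 1)
    (h : ∀ x ∈ S, ∀ y ∈ T, (1 - t) • x + t • y ∈ U) :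
    mu ρ S ^ (1 - t) * mu ρ T ^ t ≤ mu ρ U := by
  rw [mu_apply ρ _ hS, mu_apply ρ _ hT, mu_apply ρ _ hU]
  have t1 : 0 < 1 - t := by linarith
  refine Pool.Agent.H212R2.KLS.PL volume t ht0 ht1 _ _ _
    ((hm.ennreal_ofReal).indicator hS) ((hm.ennreal_ofReal).indicator hT)
    ((hm.ennreal_ofReal).indicator hU) ?_
  intro x y
  by_cases hx : x ∈ S
  · by_cases hy : y ∈ T
    · rw [indicator_of_mem hx, indicator_of_mem hy, indicator_of_mem (h x hx y hy),
        ENNReal.ofReal_rpow_of_nonneg (h0 x) t1.le, ENNReal.ofReal_rpow_of_nonneg (h0 y) ht0.le,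
        ← ENNReal.ofReal_mul (Real.rpow_nonneg (h0 x) _)]
      exact ENNReal.ofReal_le_ofReal (hlc x y t ht0 ht1)
    · rw [indicator_of_notMem hy, ENNReal.zero_rpow_of_pos ht0, mul_zero]
      exact zero_le
  · rw [indicator_of_notMem hx, ENNReal.zero_rpow_of_pos t1, zero_mul]
    exact zero_le

end V1x

open V1x in
theorem borell {F : Type} [NormedAddCommGroup F] [InnerProductSpace ℝ F]
    [FiniteDimensional ℝ F] [MeasurableSpace F] [BorelSpace F] (ρ : F → ℝ) (h0 : ∀ x, 0 ≤ ρ x)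
    (hm : Measurable ρ) (hlc : ∀ x y : F, ∀ t : ℝ, 0 < t → t < 1 →
      ρ x ^ (1 - t) * ρ y ^ t ≤ ρ ((1 - t) • x + t • y)) (h1 : mu ρ univ = 1)
    (σ : ℝ) (hσ : 0 < σ) (hi : Integrable (fun x => ‖x‖ ^ 2) (mu ρ))
    (hmom : ∫ x, ‖x‖ ^ 2 ∂(mu ρ) ≤ σ ^ 2) (r : ℝ) (hr : 3 * σ ≤ r) :
    mu ρ (Metric.closedBall 0 r)ᶜ ≤ ENNReal.ofReal (Real.exp (-(r / (3 * σ)))) := by
  have hprob : IsProbabilityMeasure (mu ρ) := ⟨h1⟩
  have hmB : ∀ s : ℝ, MeasurableSet (Metric.closedBall (0 : F) s) :=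
    fun s => measurableSet_closedBall
  set G : ℝ := (mu ρ).real (Metric.closedBall 0 r)ᶜ with hG
  have hG0 : 0 ≤ G := measureReal_nonneg
  -- Chebyshev
  have hch : (mu ρ).real {x : F | 9 * σ ^ 2 ≤ ‖x‖ ^ 2} ≤ 1 / 9 := by
    have := mul_meas_ge_le_integral_of_nonneg (μ := mu ρ)
      (Filter.Eventually.of_forall fun x : F => sq_nonneg ‖x‖) hi (9 * σ ^ 2)
    have h2 : 9 * σ ^ 2 * (mu ρ).real {x : F | 9 * σ ^ 2 ≤ ‖x‖ ^ 2} ≤ σ ^ 2 := this.trans hmom
    have h3 : 0 < σ ^ 2 := by positivity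
    nlinarith
  have hBc : (mu ρ).real (Metric.closedBall 0 (3 * σ))ᶜ ≤ 1 / 9 := by
    refine le_trans (measureReal_mono ?_) hch
    intro x hx
    rw [mem_compl_iff, mem_closedBall_zero_iff, not_le] at hx
    show 9 * σ ^ 2 ≤ ‖x‖ ^ 2
    nlinarith
  have hB : 8 / 9 ≤ (mu ρ).real (Metric.closedBall 0 (3 * σ)) := by
    rw [probReal_compl_eq_one_sub (hmB _)] at hBc
    linarith
  set t : ℝ := r / (3 * σ) with ht
  have h3σ : 0 < 3 * σ := by positivity
  have hrt : r = t * (3 * σ) := by rw [ht]; field_simp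
  have ht1 : 1 ≤ t := by rw [ht, one_le_div h3σ]; exact hr
  have hkey : G ≤ Real.exp (-t) := by
    rcases ht1.eq_or_lt with h | h
    · -- t = 1
      have e1 : r = 3 * σ := by rw [hrt, ← h, one_mul]
      rw [hG, e1, ← h]
      refine hBc.trans ?_
      rw [Real.exp_neg, one_div]
      apply inv_anti₀ (Real.exp_pos _)
      have := Real.exp_one_lt_three
      linarith
    · rcases hG0.eq_or_lt with hz | hpos
      · rw [← hz]; exact (Real.exp_pos _).le
      set l : ℝ := 2 / (t + 1) with hl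
      have ht2 : 0 < t + 1 := by linarith
      have hl0 : 0 < l := by positivity
      have hl1 : l < 1 := by rw [hl, div_lt_one ht2]; linarith
      have hlt : l * (t + 1) = 2 := by rw [hl]; exact div_mul_cancel₀ _ ht2.ne'
      have hpl := pl ρ h0 hm hlc (Metric.closedBall 0 (3 * σ)) (Metric.closedBall 0 r)ᶜ
        (Metric.closedBall 0 (3 * σ))ᶜ (hmB _) (hmB _).compl (hmB _).compl l hl0 hl1 (by
          intro x hx y hy
          rw [mem_closedBall_zero_iff] at hx
          rw [mem_compl_iff, mem_closedBall_zero_iff, not_le] at hy ⊢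
          have n1 : ‖l • y‖ ≤ ‖(1 - l) • x + l • y‖ + ‖(1 - l) • x‖ := by
            have := norm_sub_le ((1 - l) • x + l • y) ((1 - l) • x)
            rwa [add_sub_cancel_left] at this
          rw [norm_smul, norm_smul, Real.norm_of_nonneg hl0.le,
            Real.norm_of_nonneg (by linarith : 0 ≤ 1 - l)] at n1
          have n2 : (1 - l) * ‖x‖ ≤ (1 - l) * (3 * σ) := by gcongr
          have n3 : l * r < l * ‖y‖ := by gcongr
          have n4 : l * r - (1 - l) * (3 * σ) = 3 * σ := by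
            rw [hrt]
            have : l * (t * (3 * σ)) - (1 - l) * (3 * σ) = (l * (t + 1) - 1) * (3 * σ) := by ring
            rw [this, hlt]
            ring
          linarith)
      have hplr : (mu ρ).real (Metric.closedBall 0 (3 * σ)) ^ (1 - l) * G ^ l ≤
          (mu ρ).real (Metric.closedBall 0 (3 * σ))ᶜ := by
        have := ENNReal.toReal_mono (measure_ne_top _ _) hpl
        rw [ENNReal.toReal_mul, ← ENNReal.toReal_rpow, ← ENNReal.toReal_rpow] at this
        exact this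
      have h89 : (8 / 9 : ℝ) ^ (1 - l) ≤ (mu ρ).real (Metric.closedBall 0 (3 * σ)) ^ (1 - l) :=
        Real.rpow_le_rpow (by norm_num) hB (by linarith)
      have h5 : (8 / 9 : ℝ) ^ (1 - l) * G ^ l ≤ 1 / 9 :=
        le_trans (mul_le_mul_of_nonneg_right h89 (Real.rpow_nonneg hG0 _)) (hplr.trans hBc)
      have h6 := Real.log_le_log (by positivity) h5
      rw [Real.log_mul (by positivity) (by positivity), Real.log_rpow (by norm_num),
        Real.log_rpow hpos, Real.log_div (by norm_num) (by norm_num), one_div, Real.log_inv] at h6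
      have h8 : 2 ≤ Real.log 8 := by
        have e : Real.log 8 = 3 * Real.log 2 := by
          rw [show (8 : ℝ) = 2 ^ 3 by norm_num, Real.log_pow]
          norm_num
        have := Real.log_two_gt_d9
        rw [e]
        linarith
      have h9 : Real.log 8 ≤ Real.log 9 := Real.log_le_log (by norm_num) (by norm_num)
      -- l * log G ≤ - l log 9 - (1 - l) log 8 ≤ - l t
      have h10 : l * Real.log G ≤ l * (-t) := by
        have e1 : (1 - l) = l * ((t - 1) / 2) := by linarith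
        have e2 : l * Real.log G ≤ -(l * Real.log 9) - (1 - l) * Real.log 8 := by linarith
        have e3 : (1 - l) * Real.log 8 = l * ((t - 1) / 2 * Real.log 8) := by rw [e1]; ring
        have e4 : (t - 1) ≤ (t - 1) / 2 * Real.log 8 := by nlinarith
        have e5 : l * (t - 1) ≤ l * ((t - 1) / 2 * Real.log 8) := by gcongr
        have e6 : l * 2 ≤ l * Real.log 9 := by gcongr; linarith
        linarith
      have h11 : Real.log G ≤ -t := le_of_mul_le_mul_left h10 hl0
      calc G = Real.exp (Real.log G) := (Real.exp_log hpos).symm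
        _ ≤ Real.exp (-t) := Real.exp_le_exp.2 h11
  calc mu ρ (Metric.closedBall 0 r)ᶜ = ENNReal.ofReal G := by
        rw [hG, ofReal_measureReal]
    _ ≤ ENNReal.ofReal (Real.exp (-t)) := ENNReal.ofReal_le_ofReal hkey

end Pool.Agent.H888R2.KT
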