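import Pool.Agent.H59.L.S8.H888R2.KT.Defs
import Pool.Agent.H59.L.S8.H888R2.KT.V2

/-!
# Crude Poincare inequality without boundedness of the support (task V3)
-/

set_option autoImplicit false

namespace Pool.Agent.H888R2.KT

open MeasureTheory Set Matrix Pool.Agent.H888R2.KC
open scoped ENNReal InnerProductSpace
open Pool.Agent.H212R2.KLS (mu Bdd ev gr)

namespace V3x

variable {κ : Type} [Fintype κ]

theorem int_mu (ρ : EuclideanSpace ℝ κ → ℝ) (h0 : ∀ x, 0 ≤ ρ x) (hm : Measurable ρ)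
    (g : EuclideanSpace ℝ κ → ℝ) : ∫ x, g x ∂(mu ρ) = ∫ x, g x * ρ x := by
  unfold mu
  rw [integral_withDensity_eq_integral_toReal_smul hm.ennreal_ofReal
    (Filter.Eventually.of_forall fun x => ENNReal.ofReal_lt_top)]
  refine integral_congr_ae (Filter.Eventually.of_forall fun x => ?_)
  simp only [smul_eq_mul]
  rw [ENNReal.toReal_ofReal (h0 x), mul_comm]

/-- the truncated normalised density -/
noncomputable def tr (Z : EuclideanSpace ℝ κ → ℝ) (n : ℕ) : EuclideanSpace ℝ κ → ℝ :=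
  (Metric.closedBall (0 : EuclideanSpace ℝ κ) n).indicator fun x =>
    Z x / ∫ y in Metric.closedBall (0 : EuclideanSpace ℝ κ) n, Z y

theorem tr_int (Z : EuclideanSpace ℝ κ → ℝ) (hZ : ∀ x, 0 < Z x) (hc : Continuous Z) (n : ℕ)
    (hI : 0 < ∫ y in Metric.closedBall (0 : EuclideanSpace ℝ κ) n, Z y)
    (g : EuclideanSpace ℝ κ → ℝ) :
    ∫ x, g x ∂(mu (tr Z n)) = (∫ x in Metric.closedBall (0 : EuclideanSpace ℝ κ) n, g x * Z x) /
      ∫ y in Metric.closedBall (0 : EuclideanSpace ℝ κ) n, Z y := by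
  rw [int_mu (tr Z n) (fun x => indicator_nonneg (fun y _ => div_nonneg (hZ y).le hI.le) x)
    ((hc.measurable.div_const _).indicator Metric.isClosed_closedBall.measurableSet),
    ← integral_div, ← integral_indicator Metric.isClosed_closedBall.measurableSet]
  refine integral_congr_ae (Filter.Eventually.of_forall fun x => ?_)
  simp only [tr]
  by_cases hx : x ∈ Metric.closedBall (0 : EuclideanSpace ℝ κ) n
  · rw [indicator_of_mem hx, indicator_of_mem hx]
    ring
  · rw [indicator_of_notMem hx, indicator_of_notMem hx, mul_zero]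

theorem tr_lc (Z : EuclideanSpace ℝ κ → ℝ) (hZ : ∀ x, 0 < Z x) (hc : Continuous Z)
    (hlc : ∀ a b : EuclideanSpace ℝ κ, ∀ t : ℝ, 0 < t → t < 1 →
      Z a ^ (1 - t) * Z b ^ t ≤ Z ((1 - t) • a + t • b)) (hi : Integrable Z) (n : ℕ)
    (hI : 0 < ∫ y in Metric.closedBall (0 : EuclideanSpace ℝ κ) n, Z y) :
    LC (tr Z n) ∧ mu (tr Z n) univ = 1 := by
  have hnn : ∀ x, 0 ≤ tr Z n x := fun x =>
    indicator_nonneg (fun y _ => div_nonneg (hZ y).le hI.le) x
  have hm : Measurable (tr Z n) :=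
    (hc.measurable.div_const _).indicator Metric.isClosed_closedBall.measurableSet
  have hI1 : Integrable (tr Z n) :=
    (hi.div_const _).indicator Metric.isClosed_closedBall.measurableSet
  have h1 : mu (tr Z n) univ = 1 := by
    unfold mu
    rw [withDensity_apply _ MeasurableSet.univ, setLIntegral_univ,
      ← ofReal_integral_eq_lintegral_ofReal hI1 (Filter.Eventually.of_forall hnn)]
    unfold tr
    rw [integral_indicator Metric.isClosed_closedBall.measurableSet, integral_div,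
      div_self hI.ne', ENNReal.ofReal_one]
  refine ⟨⟨hnn, hm, ?_, ?_, ?_, ?_⟩, h1⟩
  · intro a b t ht0 ht1
    set I := ∫ y in Metric.closedBall (0 : EuclideanSpace ℝ κ) n, Z y with hIdef
    by_cases ha : a ∈ Metric.closedBall (0 : EuclideanSpace ℝ κ) n
    · by_cases hb : b ∈ Metric.closedBall (0 : EuclideanSpace ℝ κ) n
      · have hab : (1 - t) • a + t • b ∈ Metric.closedBall (0 : EuclideanSpace ℝ κ) n :=
          (convex_closedBall 0 (n : ℝ)) ha hb (by linarith) ht0.le (by ring)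
        unfold tr
        rw [indicator_of_mem ha, indicator_of_mem hb, indicator_of_mem hab,
          Real.div_rpow (hZ a).le hI.le, Real.div_rpow (hZ b).le hI.le, ← hIdef]
        have h2 : I ^ (1 - t) * I ^ t = I := by
          rw [← Real.rpow_add hI]
          simp
        calc Z a ^ (1 - t) / I ^ (1 - t) * (Z b ^ t / I ^ t)
            = (Z a ^ (1 - t) * Z b ^ t) / (I ^ (1 - t) * I ^ t) := by
              rw [div_mul_div_comm]
          _ = (Z a ^ (1 - t) * Z b ^ t) / I := by rw [h2]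
          _ ≤ Z ((1 - t) • a + t • b) / I := div_le_div_of_nonneg_right (hlc a b t ht0 ht1) hI.le
      · have h2 : tr Z n b = 0 := indicator_of_notMem hb _
        rw [h2, Real.zero_rpow ht0.ne', mul_zero]
        exact hnn _
    · have h2 : tr Z n a = 0 := indicator_of_notMem ha _
      rw [h2, Real.zero_rpow (by linarith : (1 - t) ≠ 0), zero_mul]
      exact hnn _
  · refine ⟨n, fun x hx => indicator_of_notMem ?_ _⟩
    rw [mem_closedBall_zero_iff, not_le]
    exact hx
  · rw [h1]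
    exact ENNReal.one_ne_top
  · intro h0
    rw [h0] at h1
    simp at h1

end V3x

open V3x in
theorem crude_all : ∃ C : ℝ, 0 < C ∧ ∀ {κ : Type} [Fintype κ] (Z M : EuclideanSpace ℝ κ → ℝ),
    (∀ x, 0 < Z x) → Continuous Z →
    (∀ a b : EuclideanSpace ℝ κ, ∀ t : ℝ, 0 < t → t < 1 →
      Z a ^ (1 - t) * Z b ^ t ≤ Z ((1 - t) • a + t • b)) →
    Integrable Z → ∀ σ : ℝ, 0 < σ → Integrable (fun x => ‖x‖ ^ 2 * Z x) →
    (∫ x, ‖x‖ ^ 2 * Z x ≤ σ ^ 2 * ∫ x, Z x) → ContDiff ℝ 1 M → (∃ B, ∀ x, |M x| ≤ B) →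
    Integrable (fun x => ‖fderiv ℝ M x‖ ^ 2 * Z x) →
    ∃ c : ℝ, ∫ x, (M x - c) ^ 2 * Z x ≤ C * σ ^ 2 * ∫ x, ‖fderiv ℝ M x‖ ^ 2 * Z x := by
  obtain ⟨C, hC, hcr⟩ := crude
  refine ⟨2 * C, by positivity, ?_⟩
  intro κ _ Z M hZ hZc hlc hi σ hσ hi2 hmom hM hMb hid
  obtain ⟨B, hB⟩ := hMb
  have hMc : Continuous M := hM.continuous
  have hI0 : 0 < ∫ x, Z x := by
    rw [integral_pos_iff_support_of_nonneg (fun x => (hZ x).le) hi]
    have : Function.support Z = univ := by
      ext x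
      simp [(hZ x).ne']
    rw [this]
    exact NeZero.pos _
  have hB0 : 0 ≤ B := le_trans (abs_nonneg _) (hB 0)
  have iM : Integrable fun x => M x * Z x := by
    refine (hi.norm.const_mul B).mono' (hMc.mul hZc).aestronglyMeasurable
      (Filter.Eventually.of_forall fun x => ?_)
    rw [norm_mul]
    exact mul_le_mul_of_nonneg_right (hB x) (norm_nonneg _)
  have iM2 : Integrable fun x => M x ^ 2 * Z x := by
    refine (iM.norm.const_mul B).mono' ((hMc.pow 2).mul hZc).aestronglyMeasurable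
      (Filter.Eventually.of_forall fun x => ?_)
    have : M x ^ 2 * Z x = M x * (M x * Z x) := by ring
    rw [this, norm_mul]
    exact mul_le_mul_of_nonneg_right (hB x) (norm_nonneg _)
  -- limits
  have hcov : AECover (volume : Measure (EuclideanSpace ℝ κ)) Filter.atTop
      fun n : ℕ => Metric.closedBall (0 : EuclideanSpace ℝ κ) (n : ℝ) :=
    aecover_closedBall tendsto_natCast_atTop_atTop
  have l0 := hcov.integral_tendsto_of_countably_generated hi
  have l1 := hcov.integral_tendsto_of_countably_generated iM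
  have l2 := hcov.integral_tendsto_of_countably_generated iM2
  have l3 := hcov.integral_tendsto_of_countably_generated hid
  set I := ∫ x, Z x with hIdef
  have hev : ∀ᶠ n : ℕ in Filter.atTop,
      I / 2 < ∫ y in Metric.closedBall (0 : EuclideanSpace ℝ κ) n, Z y :=
    l0.eventually (lt_mem_nhds (by linarith))
  have hineq : ∀ᶠ n : ℕ in Filter.atTop,
      (∫ x in Metric.closedBall (0 : EuclideanSpace ℝ κ) n, M x ^ 2 * Z x) /
          (∫ y in Metric.closedBall (0 : EuclideanSpace ℝ κ) n, Z y) -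
        ((∫ x in Metric.closedBall (0 : EuclideanSpace ℝ κ) n, M x * Z x) /
          (∫ y in Metric.closedBall (0 : EuclideanSpace ℝ κ) n, Z y)) ^ 2 ≤
      C * (2 * σ ^ 2) *
        ((∫ x in Metric.closedBall (0 : EuclideanSpace ℝ κ) n, ‖fderiv ℝ M x‖ ^ 2 * Z x) /
          (∫ y in Metric.closedBall (0 : EuclideanSpace ℝ κ) n, Z y)) := by
    filter_upwards [hev] with n hn
    have hIn : 0 < ∫ y in Metric.closedBall (0 : EuclideanSpace ℝ κ) n, Z y := by linarith
    obtain ⟨hlcn, hmass⟩ := tr_lc Z hZ hZc hlc hi n hIn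
    have hs : 0 < Real.sqrt 2 * σ := by positivity
    have hs2 : (Real.sqrt 2 * σ) ^ 2 = 2 * σ ^ 2 := by
      rw [mul_pow, Real.sq_sqrt (by norm_num)]
    have hmn : ∫ x, ‖x‖ ^ 2 ∂(mu (tr Z n)) ≤ (Real.sqrt 2 * σ) ^ 2 := by
      rw [tr_int Z hZ hZc n hIn, hs2, div_le_iff₀ hIn]
      have h1 : ∫ x in Metric.closedBall (0 : EuclideanSpace ℝ κ) n, ‖x‖ ^ 2 * Z x ≤
          ∫ x, ‖x‖ ^ 2 * Z x :=
        setIntegral_le_integral hi2
          (Filter.Eventually.of_forall fun x => mul_nonneg (sq_nonneg _) (hZ x).le)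
      have h2 : σ ^ 2 * I ≤ σ ^ 2 *
          (2 * ∫ y in Metric.closedBall (0 : EuclideanSpace ℝ κ) n, Z y) :=
        mul_le_mul_of_nonneg_left (by linarith) (by positivity)
      linarith
    have h3 := hcr (tr Z n) hlcn hmass _ hs hmn M hM
    rw [tr_int Z hZ hZc n hIn (fun x => M x ^ 2), tr_int Z hZ hZc n hIn M,
      tr_int Z hZ hZc n hIn (fun x => ‖fderiv ℝ M x‖ ^ 2), hs2] at h3
    exact h3
  have hlim := le_of_tendsto_of_tendsto
    ((l2.div l0 hI0.ne').sub ((l1.div l0 hI0.ne').pow 2))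
    ((l3.div l0 hI0.ne').const_mul (C * (2 * σ ^ 2))) hineq
  refine ⟨(∫ x, M x * Z x) / I, ?_⟩
  set c := (∫ x, M x * Z x) / I with hc
  have hexp : ∫ x, (M x - c) ^ 2 * Z x =
      (∫ x, M x ^ 2 * Z x) - 2 * c * (∫ x, M x * Z x) + c ^ 2 * I := by
    have e1 : ∀ x, (M x - c) ^ 2 * Z x = M x ^ 2 * Z x - 2 * c * (M x * Z x) + c ^ 2 * Z x := by
      intro x
      ring
    rw [integral_congr_ae (Filter.Eventually.of_forall e1)]
    have s1 : Integrable fun x => 2 * c * (M x * Z x) := iM.const_mul _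
    have s2 : Integrable fun x => M x ^ 2 * Z x - 2 * c * (M x * Z x) := iM2.sub s1
    have s3 : Integrable fun x => c ^ 2 * Z x := hi.const_mul _
    rw [integral_add s2 s3, integral_sub iM2 s1, integral_const_mul, integral_const_mul]
  have hcI : ∫ x, M x * Z x = c * I := by
    rw [hc, div_mul_cancel₀ _ hI0.ne']
  rw [hexp, hcI]
  have h4 : (∫ x, M x ^ 2 * Z x) / I - c ^ 2 ≤
      C * (2 * σ ^ 2) * ((∫ x, ‖fderiv ℝ M x‖ ^ 2 * Z x) / I) := hlim
  have h5 := mul_le_mul_of_nonneg_right h4 hI0.le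
  have h6 : ((∫ x, M x ^ 2 * Z x) / I - c ^ 2) * I = (∫ x, M x ^ 2 * Z x) - c ^ 2 * I := by
    rw [sub_mul, div_mul_cancel₀ _ hI0.ne']
  have h7 : C * (2 * σ ^ 2) * ((∫ x, ‖fderiv ℝ M x‖ ^ 2 * Z x) / I) * I =
      2 * C * σ ^ 2 * ∫ x, ‖fderiv ℝ M x‖ ^ 2 * Z x := by
    rw [mul_assoc, div_mul_cancel₀ _ hI0.ne']
    ring
  rw [h6, h7] at h5
  nlinarith

end Pool.Agent.H888R2.KT
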