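import Pool.Agent.H59.L.S8.H888R2.KT.Defs
import Pool.Agent.H59.L.S8.H888R2.KC.U2

/-!
# Task V4b: Fubini for the Gaussian tilt in several directions
-/

set_option autoImplicit false

namespace Pool.Agent.H888R2.KT

open MeasureTheory Set Matrix Pool.Agent.H888R2.KC
open scoped ENNReal InnerProductSpace
open Pool.Agent.H212R2.KLS (mu Bdd ev gr)

variable {κ : Type} [Fintype κ] {q : ℕ}

namespace V4bx

theorem prodint (f : Fin q → ℝ → ℝ) (hf : ∀ i, Integrable (f i)) :
    (Integrable fun τ : EuclideanSpace ℝ (Fin q) => ∏ i, f i (τ i)) ∧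
    (∫ τ : EuclideanSpace ℝ (Fin q), ∏ i, f i (τ i)) = ∏ i, ∫ t, f i t := by
  constructor
  · rw [← (PiLp.volume_preserving_toLp (Fin q)).integrable_comp_emb
      (MeasurableEquiv.toLp 2 _).measurableEmbedding]
    exact Integrable.fintype_prod (μ := fun _ : Fin q => (volume : Measure ℝ)) hf
  · rw [← (PiLp.volume_preserving_toLp (Fin q)).integral_comp
      (MeasurableEquiv.toLp 2 _).measurableEmbedding]
    exact integral_fintype_prod_volume_eq_prod (ι := Fin q) (E := fun _ => ℝ) f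

/-- the weight as a function of the vector `s` -/
noncomputable def w (K : ℝ) (s : Fin q → ℝ) (τ : EuclideanSpace ℝ (Fin q)) : ℝ :=
  Real.exp (-((∑ j, (s j - τ j) ^ 2) / (2 * K)))

theorem w_eq (K : ℝ) (s : Fin q → ℝ) (τ : EuclideanSpace ℝ (Fin q)) :
    w K s τ = ∏ j, Real.exp (-((s j - τ j) ^ 2 / (2 * K))) := by
  unfold w
  rw [← Real.exp_sum, Finset.sum_div, Finset.sum_neg_distrib]

theorem w1 (K : ℝ) (hK : 0 < K) (s : Fin q → ℝ) :
    (Integrable fun τ : EuclideanSpace ℝ (Fin q) => (1 : ℝ) * w K s τ) ∧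
    (∫ τ : EuclideanSpace ℝ (Fin q), (1 : ℝ) * w K s τ) = Real.sqrt (2 * Real.pi * K) ^ q := by
  simp only [one_mul, w_eq]
  obtain ⟨h1, h2⟩ := prodint (fun j t => Real.exp (-((s j - t) ^ 2 / (2 * K))))
    (fun j => by simpa using (U2x.gau1 K hK (s j)).1)
  refine ⟨h1, ?_⟩
  rw [h2]
  have : ∀ j : Fin q, ∫ t : ℝ, Real.exp (-((s j - t) ^ 2 / (2 * K))) =
      Real.sqrt (2 * Real.pi * K) := fun j => by simpa using (U2x.gau1 K hK (s j)).2
  simp [this]

theorem w2 (K : ℝ) (hK : 0 < K) (s : Fin q → ℝ) :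
    (Integrable fun τ : EuclideanSpace ℝ (Fin q) => ‖τ‖ ^ 2 * w K s τ) ∧
    (∫ τ : EuclideanSpace ℝ (Fin q), ‖τ‖ ^ 2 * w K s τ) =
      Real.sqrt (2 * Real.pi * K) ^ q * (∑ j, s j ^ 2 + q * K) := by
  classical
  have hn : ∀ τ : EuclideanSpace ℝ (Fin q), ‖τ‖ ^ 2 * w K s τ =
      ∑ i, ∏ j, ((if j = i then (τ j) ^ 2 else 1) * Real.exp (-((s j - τ j) ^ 2 / (2 * K)))) := by
    intro τ
    rw [EuclideanSpace.norm_eq, Real.sq_sqrt (by positivity), Finset.sum_mul]
    refine Finset.sum_congr rfl fun i _ => ?_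
    rw [Finset.prod_mul_distrib, Finset.prod_ite_eq' Finset.univ i (fun j => (τ j) ^ 2), w_eq]
    simp
  simp only [hn]
  have hi : ∀ i j : Fin q, Integrable (fun t : ℝ =>
      (if j = i then t ^ 2 else 1) * Real.exp (-((s j - t) ^ 2 / (2 * K)))) := by
    intro i j
    by_cases h : j = i
    · simp only [h, if_true]
      exact (U2x.gau2 K hK (s i)).1
    · simp only [h, if_false]
      exact (U2x.gau1 K hK (s j)).1
  have hI : ∀ i j : Fin q, ∫ t : ℝ,
      (if j = i then t ^ 2 else 1) * Real.exp (-((s j - t) ^ 2 / (2 * K))) =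
      Real.sqrt (2 * Real.pi * K) * (if j = i then (s j ^ 2 + K) else 1) := by
    intro i j
    by_cases h : j = i
    · simp only [h, if_true]
      exact (U2x.gau2 K hK (s i)).2
    · simp only [h, if_false, mul_one]
      exact (U2x.gau1 K hK (s j)).2
  have hp := fun i : Fin q => prodint (fun j t =>
      (if j = i then t ^ 2 else 1) * Real.exp (-((s j - t) ^ 2 / (2 * K)))) (hi i)
  constructor
  · exact integrable_finsetSum _ fun i _ => (hp i).1
  · rw [integral_finsetSum _ fun i _ => (hp i).1]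
    have : ∀ i : Fin q, ∫ τ : EuclideanSpace ℝ (Fin q), ∏ j,
        ((if j = i then (τ j) ^ 2 else 1) * Real.exp (-((s j - τ j) ^ 2 / (2 * K)))) =
        Real.sqrt (2 * Real.pi * K) ^ q * (s i ^ 2 + K) := by
      intro i
      rw [(hp i).2]
      simp only [hI]
      rw [Finset.prod_mul_distrib, Finset.prod_const,
        Finset.prod_ite_eq' Finset.univ i (fun j => s j ^ 2 + K)]
      simp
    simp only [this]
    rw [← Finset.mul_sum, Finset.sum_add_distrib]
    simp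

theorem fub (μ : Measure (EuclideanSpace ℝ κ)) [IsFiniteMeasure μ]
    (hb : ∃ R, μ (Metric.closedBall 0 R)ᶜ = 0) (e : Fin q → EuclideanSpace ℝ κ) (K : ℝ)
    (g : EuclideanSpace ℝ κ → ℝ) (hg : Continuous g) (k : EuclideanSpace ℝ (Fin q) → ℝ)
    (hk : Continuous k) (hk0 : ∀ τ, 0 ≤ k τ) (c : (Fin q → ℝ) → ℝ) (hc : Continuous c)
    (hi : ∀ s, Integrable (fun τ : EuclideanSpace ℝ (Fin q) => k τ * w K s τ))
    (hI : ∀ s, ∫ τ : EuclideanSpace ℝ (Fin q), k τ * w K s τ = c s) :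
    (Integrable fun τ : EuclideanSpace ℝ (Fin q) => ∫ x, g x * (k τ * tw e K τ x) ∂μ) ∧
    (∫ τ : EuclideanSpace ℝ (Fin q), ∫ x, g x * (k τ * tw e K τ x) ∂μ) =
      ∫ x, g x * c (fun j => ⟪e j, x⟫_ℝ) ∂μ := by
  have htw : ∀ τ x, tw e K τ x = w K (fun j => ⟪e j, x⟫_ℝ) τ := fun τ x => rfl
  have hin : Continuous fun x : EuclideanSpace ℝ κ => fun j => ⟪e j, x⟫_ℝ := by
    refine continuous_pi fun j => ?_
    exact continuous_const.inner continuous_id
  have hcont : Continuous (fun p : EuclideanSpace ℝ (Fin q) × EuclideanSpace ℝ κ =>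
      g p.2 * (k p.1 * tw e K p.1 p.2)) := by
    refine (hg.comp continuous_snd).mul ((hk.comp continuous_fst).mul ?_)
    unfold tw
    refine Real.continuous_exp.comp (Continuous.neg (Continuous.div_const ?_ _))
    refine continuous_finsetSum _ fun j _ => ?_
    have h1 : Continuous fun p : EuclideanSpace ℝ (Fin q) × EuclideanSpace ℝ κ =>
        ⟪e j, p.2⟫_ℝ := continuous_const.inner continuous_snd
    have h2 : Continuous fun p : EuclideanSpace ℝ (Fin q) × EuclideanSpace ℝ κ => p.1 j := by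
      fun_prop
    exact (h1.sub h2).pow 2
  have hint : Integrable (fun p : EuclideanSpace ℝ (Fin q) × EuclideanSpace ℝ κ =>
      g p.2 * (k p.1 * tw e K p.1 p.2))
      ((volume : Measure (EuclideanSpace ℝ (Fin q))).prod μ) := by
    rw [integrable_prod_iff' hcont.aestronglyMeasurable]
    constructor
    · exact ae_of_all _ fun x => (hi (fun j => ⟪e j, x⟫_ℝ)).const_mul (g x)
    · have h1 : ∀ x : EuclideanSpace ℝ κ, ∫ τ : EuclideanSpace ℝ (Fin q),
          ‖g x * (k τ * tw e K τ x)‖ = |g x| * c (fun j => ⟪e j, x⟫_ℝ) := by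
        intro x
        rw [← hI, ← integral_const_mul]
        congr 1
        ext τ
        have h5 : 0 ≤ k τ * tw e K τ x := mul_nonneg (hk0 τ) (by unfold tw; exact (Real.exp_pos _).le)
        rw [norm_mul, Real.norm_eq_abs, Real.norm_eq_abs, abs_of_nonneg h5, htw]
      simp only [h1]
      apply U2x.int_bdd μ hb
      exact hg.abs.mul (hc.comp hin)
  refine ⟨hint.integral_prod_left, ?_⟩
  rw [integral_integral_swap hint]
  congr 1
  ext x
  rw [integral_const_mul]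
  simp only [htw]
  rw [hI]

end V4bx

open V4bx

theorem tw_fub (μ : Measure (EuclideanSpace ℝ κ)) [IsFiniteMeasure μ]
    (hb : ∃ R, μ (Metric.closedBall 0 R)ᶜ = 0) (e : Fin q → EuclideanSpace ℝ κ) (K : ℝ)
    (hK : 0 < K) (g : EuclideanSpace ℝ κ → ℝ) (hg : Continuous g) :
    (Integrable fun τ : EuclideanSpace ℝ (Fin q) => ∫ x, g x * tw e K τ x ∂μ) ∧
    (∫ τ : EuclideanSpace ℝ (Fin q), ∫ x, g x * tw e K τ x ∂μ) =
      Real.sqrt (2 * Real.pi * K) ^ q * ∫ x, g x ∂μ ∧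
    (Integrable fun τ : EuclideanSpace ℝ (Fin q) => ‖τ‖ ^ 2 * ∫ x, tw e K τ x ∂μ) ∧
    (∫ τ : EuclideanSpace ℝ (Fin q), ‖τ‖ ^ 2 * ∫ x, tw e K τ x ∂μ) =
      Real.sqrt (2 * Real.pi * K) ^ q * ∫ x, (∑ j, ⟪e j, x⟫_ℝ ^ 2 + q * K) ∂μ := by
  obtain ⟨h1, h2⟩ := fub μ hb e K g hg (fun _ => 1) continuous_const (fun _ => zero_le_one)
    (fun _ => Real.sqrt (2 * Real.pi * K) ^ q) continuous_const (fun s => (w1 K hK s).1)
    (fun s => (w1 K hK s).2)
  obtain ⟨h3, h4⟩ := fub μ hb e K (fun _ => 1) continuous_const (fun τ => ‖τ‖ ^ 2)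
    (by fun_prop) (fun τ => sq_nonneg _)
    (fun s => Real.sqrt (2 * Real.pi * K) ^ q * (∑ j, s j ^ 2 + q * K)) (by fun_prop)
    (fun s => (w2 K hK s).1) (fun s => (w2 K hK s).2)
  simp only [one_mul] at h1 h2 h3 h4
  simp only [integral_const_mul] at h3 h4
  refine ⟨h1, ?_, h3, h4⟩
  rw [h2, integral_mul_const, mul_comm]

end Pool.Agent.H888R2.KT
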