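import Pool.Agent.H59.L.S8.H888R2.KT.Defs
import Pool.Agent.H59.L.S8.H212R2.KLS.T1

/-! V4c: Gaussian tilts (in several directions) of a log-concave density have log-concave total
mass (helper991 for helper888, following KC/U2c). -/

set_option autoImplicit false

namespace Pool.Agent.H888R2.KT

open MeasureTheory Set Matrix Pool.Agent.H888R2.KC
open scoped ENNReal InnerProductSpace
open Pool.Agent.H212R2.KLS (mu Bdd ev gr)

namespace V4cx

variable {κ : Type} [Fintype κ] {q : ℕ}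

theorem w_pos (e : Fin q → EuclideanSpace ℝ κ) (K : ℝ) (a : EuclideanSpace ℝ (Fin q))
    (x : EuclideanSpace ℝ κ) : 0 < tw e K a x :=
  Real.exp_pos _

theorem w_cont (e : Fin q → EuclideanSpace ℝ κ) (K : ℝ) (a : EuclideanSpace ℝ (Fin q)) :
    Continuous (tw e K a) := by
  unfold tw
  fun_prop

theorem w_le (e : Fin q → EuclideanSpace ℝ κ) (K : ℝ) (a : EuclideanSpace ℝ (Fin q)) (hK : 0 < K)
    (x : EuclideanSpace ℝ κ) : tw e K a x ≤ 1 := by
  unfold tw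
  rw [Real.exp_le_one_iff]
  have h1 : 0 ≤ ∑ j, (⟪e j, x⟫_ℝ - a j) ^ 2 := Finset.sum_nonneg fun j _ => sq_nonneg _
  have : 0 ≤ (∑ j, (⟪e j, x⟫_ℝ - a j) ^ 2) / (2 * K) := by positivity
  linarith

theorem w_logc (e : Fin q → EuclideanSpace ℝ κ) (K : ℝ) (a b : EuclideanSpace ℝ (Fin q))
    (hK : 0 < K) (x y : EuclideanSpace ℝ κ) (t : ℝ) (ht0 : 0 < t) (ht1 : t < 1) :
    tw e K a x ^ (1 - t) * tw e K b y ^ t ≤
      tw e K ((1 - t) • a + t • b) ((1 - t) • x + t • y) := by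
  unfold tw
  rw [← Real.exp_mul, ← Real.exp_mul, ← Real.exp_add, Real.exp_le_exp]
  have h2 : ∑ j, (⟪e j, (1 - t) • x + t • y⟫_ℝ - ((1 - t) • a + t • b) j) ^ 2 ≤
      (1 - t) * (∑ j, (⟪e j, x⟫_ℝ - a j) ^ 2) + t * (∑ j, (⟪e j, y⟫_ℝ - b j) ^ 2) := by
    rw [Finset.mul_sum, Finset.mul_sum, ← Finset.sum_add_distrib]
    refine Finset.sum_le_sum fun j _ => ?_
    have h1 : ⟪e j, (1 - t) • x + t • y⟫_ℝ - ((1 - t) • a + t • b) j =
        (1 - t) * (⟪e j, x⟫_ℝ - a j) + t * (⟪e j, y⟫_ℝ - b j) := by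
      rw [inner_add_right, inner_smul_right, inner_smul_right]
      simp only [PiLp.add_apply, PiLp.smul_apply, smul_eq_mul]
      ring
    rw [h1]
    generalize ⟪e j, x⟫_ℝ - a j = A
    generalize ⟪e j, y⟫_ℝ - b j = B
    have h3 : 0 ≤ (1 - t) * t * (A - B) ^ 2 := by
      have : 0 < 1 - t := by linarith
      positivity
    nlinarith
  have h4 := div_le_div_of_nonneg_right h2 (show 0 ≤ 2 * K by positivity)
  have h5 : -((∑ j, (⟪e j, x⟫_ℝ - a j) ^ 2) / (2 * K)) * (1 - t) +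
      -((∑ j, (⟪e j, y⟫_ℝ - b j) ^ 2) / (2 * K)) * t =
      -(((1 - t) * (∑ j, (⟪e j, x⟫_ℝ - a j) ^ 2) + t * (∑ j, (⟪e j, y⟫_ℝ - b j) ^ 2)) /
        (2 * K)) := by ring
  rw [h5]
  linarith

theorem key (ρ : EuclideanSpace ℝ κ → ℝ) (h0 : ∀ x, 0 ≤ ρ x) (hm : Measurable ρ)
    (hfin : mu ρ univ ≠ ⊤) (e : Fin q → EuclideanSpace ℝ κ) (K : ℝ)
    (a : EuclideanSpace ℝ (Fin q)) (hK : 0 < K) :
    ENNReal.ofReal (∫ x, tw e K a x ∂(mu ρ)) = ∫⁻ x, ENNReal.ofReal (ρ x * tw e K a x) := by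
  have hF : IsFiniteMeasure (mu ρ) := ⟨lt_of_le_of_ne le_top hfin⟩
  have hint : Integrable (tw e K a) (mu ρ) := by
    refine Integrable.mono' (integrable_const (1 : ℝ)) (w_cont e K a).aestronglyMeasurable ?_
    filter_upwards with x
    rw [Real.norm_eq_abs, abs_of_pos (w_pos e K a x)]
    exact w_le e K a hK x
  rw [ofReal_integral_eq_lintegral_ofReal hint (by
    filter_upwards with x using (w_pos e K a x).le)]
  unfold mu
  rw [lintegral_withDensity_eq_lintegral_mul _ (by fun_prop)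
    (by exact (w_cont e K a).measurable.ennreal_ofReal)]
  refine lintegral_congr fun x => ?_
  rw [Pi.mul_apply, ENNReal.ofReal_mul (h0 x)]

end V4cx

variable {κ : Type} [Fintype κ] {q : ℕ}

theorem tw_lc (ρ : EuclideanSpace ℝ κ → ℝ) (h0 : ∀ x, 0 ≤ ρ x) (hm : Measurable ρ)
    (hlc : ∀ x y : EuclideanSpace ℝ κ, ∀ t : ℝ, 0 < t → t < 1 →
      ρ x ^ (1 - t) * ρ y ^ t ≤ ρ ((1 - t) • x + t • y)) (hfin : mu ρ univ ≠ ⊤)
    (e : Fin q → EuclideanSpace ℝ κ) (K : ℝ) (hK : 0 < K) (a b : EuclideanSpace ℝ (Fin q))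
    (t : ℝ) (ht0 : 0 < t) (ht1 : t < 1) :
    (∫ x, tw e K a x ∂(mu ρ)) ^ (1 - t) * (∫ x, tw e K b x ∂(mu ρ)) ^ t ≤
      ∫ x, tw e K ((1 - t) • a + t • b) x ∂(mu ρ) := by
  have hpos : ∀ c : EuclideanSpace ℝ (Fin q), 0 ≤ ∫ x, tw e K c x ∂(mu ρ) := fun c =>
    integral_nonneg fun x => (V4cx.w_pos e K c x).le
  have t1 : 0 < 1 - t := by linarith
  rw [← ENNReal.ofReal_le_ofReal_iff (hpos _), ENNReal.ofReal_mul (Real.rpow_nonneg (hpos a) _),
    ← ENNReal.ofReal_rpow_of_nonneg (hpos a) t1.le, ← ENNReal.ofReal_rpow_of_nonneg (hpos b) ht0.le,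
    V4cx.key ρ h0 hm hfin e K a hK, V4cx.key ρ h0 hm hfin e K b hK,
    V4cx.key ρ h0 hm hfin e K _ hK]
  refine Pool.Agent.H212R2.KLS.PL volume t ht0 ht1 _ _ _ ?_ ?_ ?_ ?_
  · exact (hm.mul (V4cx.w_cont e K a).measurable).ennreal_ofReal
  · exact (hm.mul (V4cx.w_cont e K b).measurable).ennreal_ofReal
  · exact (hm.mul (V4cx.w_cont e K _).measurable).ennreal_ofReal
  · intro x y
    have hx : 0 ≤ ρ x * tw e K a x := mul_nonneg (h0 x) (V4cx.w_pos e K a x).le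
    have hy : 0 ≤ ρ y * tw e K b y := mul_nonneg (h0 y) (V4cx.w_pos e K b y).le
    rw [ENNReal.ofReal_rpow_of_nonneg hx t1.le, ENNReal.ofReal_rpow_of_nonneg hy ht0.le,
      ← ENNReal.ofReal_mul (Real.rpow_nonneg hx _)]
    refine ENNReal.ofReal_le_ofReal ?_
    rw [Real.mul_rpow (h0 x) (V4cx.w_pos e K a x).le, Real.mul_rpow (h0 y) (V4cx.w_pos e K b y).le]
    calc ρ x ^ (1 - t) * tw e K a x ^ (1 - t) * (ρ y ^ t * tw e K b y ^ t)
        = (ρ x ^ (1 - t) * ρ y ^ t) * (tw e K a x ^ (1 - t) * tw e K b y ^ t) := by ring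
      _ ≤ ρ ((1 - t) • x + t • y) *
          tw e K ((1 - t) • a + t • b) ((1 - t) • x + t • y) := by
        refine mul_le_mul (hlc x y t ht0 ht1) (V4cx.w_logc e K a b hK x y t ht0 ht1) ?_ (h0 _)
        exact mul_nonneg (Real.rpow_nonneg (V4cx.w_pos e K a x).le _)
          (Real.rpow_nonneg (V4cx.w_pos e K b y).le _)

end Pool.Agent.H888R2.KT
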