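import Pool.Agent.H59.L.S8.H888R2.KT.Defs
import Pool.Agent.H59.L.S8.H888R2.KT.C1
import Pool.Agent.H59.L.S8.H888R2.KT.C2
import Pool.Agent.H59.L.S8.H888R2.KT.C7
import Pool.Agent.H59.L.S8.H888R2.KT.T2
import Pool.Agent.H59.L.S8.H888R2.KT.V5
import Pool.Agent.H59.L.S8.H888R2.KC.F2
import Pool.Agent.H59.L.S8.H888R2.KC.F3
import Pool.Agent.H59.L.S8.H888R2.KC.G1
import Pool.Agent.H59.L.S8.H212R2.KLS.S1
import Pool.Agent.H59.L.S8.H212R2.KLS.S2

/-!
# KLS for tuples of Hermitian matrices invariant under simultaneous conjugation: assembly for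
bounded support (task G2)
-/

set_option autoImplicit false

namespace Pool.Agent.H888R2.KT

open MeasureTheory Set Matrix Pool.Agent.H888R2.KC
open scoped ENNReal InnerProductSpace
open Pool.Agent.H212R2.KLS (mu Bdd ev gr)

namespace G2x

theorem intg {F : Type*} [NormedAddCommGroup F] [NormedSpace ℝ F] [FiniteDimensional ℝ F]
    [MeasurableSpace F] [BorelSpace F] (μ : Measure F) [IsFiniteMeasure μ]
    (hb : ∃ R, μ (Metric.closedBall 0 R)ᶜ = 0) (g : F → ℝ) (hg : Continuous g) :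
    Integrable g μ := by
  obtain ⟨R, hR⟩ := hb
  have : ProperSpace F := FiniteDimensional.proper ℝ F
  obtain ⟨C, hC⟩ := (isCompact_closedBall (0 : F) R).exists_bound_of_continuousOn hg.continuousOn
  have h1 : Metric.closedBall (0 : F) R ∈ ae μ := mem_ae_iff.2 hR
  refine Integrable.of_bound hg.aestronglyMeasurable C ?_
  filter_upwards [h1] with x hx using hC x hx

/-- restriction of the density -/
theorem mu_indicator {F : Type*} [MeasureSpace F] (ρ : F → ℝ) (U : Set F)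
    (hU : MeasurableSet U) : mu (U.indicator ρ) = (mu ρ).restrict U := by
  rw [mu, mu, restrict_withDensity hU, ← withDensity_indicator hU]
  congr 1
  ext x
  by_cases hx : x ∈ U <;> simp [hx]

/-- integral against a product of densities -/
theorem integral_mu_mul {F : Type*} [MeasureSpace F] (ρ w g : F → ℝ) (h0 : ∀ x, 0 ≤ ρ x)
    (hm : Measurable ρ) (hw0 : ∀ x, 0 ≤ w x) (hwm : Measurable w) :
    ∫ x, g x ∂(mu (fun x => ρ x * w x)) = ∫ x, g x * w x ∂(mu ρ) := by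
  have h : mu (fun x => ρ x * w x) = (mu ρ).withDensity (fun x => ENNReal.ofReal (w x)) := by
    rw [mu, mu, ← withDensity_mul _ hm.ennreal_ofReal hwm.ennreal_ofReal]
    congr 1
    ext x
    simp [ENNReal.ofReal_mul (h0 x)]
  rw [h, integral_withDensity_eq_integral_toReal_smul hwm.ennreal_ofReal
    (ae_of_all _ fun x => ENNReal.ofReal_lt_top)]
  refine integral_congr_ae (ae_of_all _ fun x => ?_)
  simp only [ENNReal.toReal_ofReal (hw0 x), smul_eq_mul]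
  ring

theorem mu_mono {F : Type*} [MeasureSpace F] (ρ w : F → ℝ) (h : ∀ x, w x ≤ ρ x) (U : Set F) :
    mu w U ≤ mu ρ U := by
  have : mu w ≤ mu ρ := withDensity_mono (ae_of_all _ fun x => ENNReal.ofReal_le_ofReal (h x))
  exact this U

/-- `q * exp y ≤ exp z` if `q + y ≤ z` -/
theorem q_exp (q : ℕ) (y z : ℝ) (h : q + y ≤ z) :
    (q : ℝ≥0∞) * ENNReal.ofReal (Real.exp y) ≤ ENNReal.ofReal (Real.exp z) := by
  have h1 : (q : ℝ≥0∞) = ENNReal.ofReal (q : ℝ) := (ENNReal.ofReal_natCast q).symm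
  rw [h1, ← ENNReal.ofReal_mul (Nat.cast_nonneg q)]
  refine ENNReal.ofReal_le_ofReal ?_
  have h2 : (q : ℝ) ≤ Real.exp q := by
    have := Real.add_one_le_exp (q : ℝ)
    linarith
  calc (q : ℝ) * Real.exp y ≤ Real.exp q * Real.exp y :=
        mul_le_mul_of_nonneg_right h2 (Real.exp_pos _).le
    _ = Real.exp (q + y) := (Real.exp_add _ _).symm
    _ ≤ Real.exp z := Real.exp_le_exp.2 h

/-- the set where all components have small operator norm -/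
theorem closed_U {𝕜 : Type} [RCLike 𝕜] {N q : ℕ} {ι : Type} [Fintype ι]
    {Φ : EuclideanSpace ℝ ι →ₗ[ℝ] Matrix (Fin N) (Fin N) 𝕜} (r : ℝ) :
    IsClosed {x : EuclideanSpace ℝ (Fin q × ι) | ∀ j, OpL r (Φ (cp j x))} := by
  have h1 : {x : EuclideanSpace ℝ (Fin q × ι) | ∀ j, OpL r (Φ (cp j x))} =
      ⋂ j : Fin q, (cp j : EuclideanSpace ℝ (Fin q × ι) →ₗ[ℝ] EuclideanSpace ℝ ι) ⁻¹'
        {y : EuclideanSpace ℝ ι | OpL r (Φ y)} := by
    ext x
    simp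
  rw [h1]
  refine isClosed_iInter fun j => ?_
  exact (OpL_closed r).preimage (LinearMap.continuous_of_finiteDimensional _)

/-- bound of the Euclidean norm -/
theorem norm_le_U {𝕜 : Type} [RCLike 𝕜] {N q : ℕ} {ι : Type} [Fintype ι]
    {Φ : EuclideanSpace ℝ ι →ₗ[ℝ] Matrix (Fin N) (Fin N) 𝕜} (h : Fr Φ) (t : ℝ) (ht : 0 ≤ t)
    (x : EuclideanSpace ℝ (Fin q × ι)) (hx : ∀ j, OpL t (Φ (cp j x))) :
    ‖x‖ ≤ Real.sqrt q * (Real.sqrt N * t) := by
  have h1 : ‖x‖ ^ 2 ≤ (Real.sqrt q * (Real.sqrt N * t)) ^ 2 := by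
    rw [norm_cp, mul_pow (Real.sqrt q), Real.sq_sqrt (Nat.cast_nonneg q)]
    have h2 : ∀ j ∈ (Finset.univ : Finset (Fin q)), ‖cp j x‖ ^ 2 ≤ (Real.sqrt N * t) ^ 2 := by
      intro j _
      exact pow_le_pow_left₀ (norm_nonneg _) (norm_le_OpL h t ht _ (hx j)) 2
    refine (Finset.sum_le_card_nsmul _ _ _ h2).trans (le_of_eq ?_)
    simp
  exact le_of_sq_le_sq h1 (by positivity)
where
  le_of_sq_le_sq {a b : ℝ} (h : a ^ 2 ≤ b ^ 2) (hb : 0 ≤ b) : a ≤ b := by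
    exact (abs_le_of_sq_le_sq' h hb).2

/-- the tail of the Euclidean norm -/
theorem ball_tail {𝕜 : Type} [RCLike 𝕜] {N q : ℕ} {ι : Type} [Fintype ι]
    {Φ : EuclideanSpace ℝ ι →ₗ[ℝ] Matrix (Fin N) (Fin N) 𝕜} (h : Fr Φ) (hN : 3 ≤ N)
    (hq : 1 ≤ q) (ρ : EuclideanSpace ℝ (Fin q × ι) → ℝ) (s : ℝ) (hs : 0 < s)
    (htail : ∀ u : ℝ, mu ρ {x | ¬ ∀ j, OpL (8 * u * Real.sqrt (N * s)) (Φ (cp j x))} ≤
      q * ENNReal.ofReal (Real.exp (N * (12 - u / 30)))) (r : ℝ)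
    (hr : 2 * (480 * Real.sqrt (q * s)) * (6 * N + q) ≤ r) :
    mu ρ (Metric.closedBall 0 r)ᶜ ≤
      ENNReal.ofReal (Real.exp (-(r / (480 * Real.sqrt (q * s))))) := by
  have hN3 : (3:ℝ) ≤ N := by exact_mod_cast hN
  have hq1 : (1:ℝ) ≤ q := by exact_mod_cast hq
  have hN0 : (0:ℝ) < N := by linarith
  have hq0 : (0:ℝ) < q := by linarith
  have hss : 0 < Real.sqrt (q * s) := Real.sqrt_pos.2 (by positivity)
  have hr0 : 0 < r := lt_of_lt_of_le (by positivity) hr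
  have hsN : 0 < Real.sqrt N := Real.sqrt_pos.2 hN0
  have hNN : Real.sqrt N * Real.sqrt N = N := Real.mul_self_sqrt hN0.le
  obtain ⟨z, hz⟩ : ∃ z : ℝ, z = r / (480 * Real.sqrt (q * s)) := ⟨_, rfl⟩
  have hrz : r = z * (480 * Real.sqrt (q * s)) := by
    rw [hz]
    field_simp
  have hz12 : 12 * N + 2 * q ≤ z := by
    rw [hz, le_div_iff₀ (by positivity)]
    linarith
  have hz0 : 0 ≤ z := by linarith
  obtain ⟨u, hu⟩ : ∃ u : ℝ, u = 60 * z / N := ⟨_, rfl⟩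
  have hu0 : 0 ≤ u := by rw [hu]; positivity
  have hNu : N * u = 60 * z := by
    rw [hu]
    field_simp
  have hsub : (Metric.closedBall (0 : EuclideanSpace ℝ (Fin q × ι)) r)ᶜ ⊆
      {x | ¬ ∀ j, OpL (8 * u * Real.sqrt (N * s)) (Φ (cp j x))} := by
    intro x hx hop
    refine hx ?_
    rw [mem_closedBall_zero_iff]
    have hpos : 0 ≤ 8 * u * Real.sqrt (N * s) := by positivity
    refine (norm_le_U h _ hpos x hop).trans (le_of_eq ?_)
    rw [Real.sqrt_mul hN0.le s]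
    calc Real.sqrt q * (Real.sqrt N * (8 * u * (Real.sqrt N * Real.sqrt s))) =
        8 * ((Real.sqrt N * Real.sqrt N) * u) * (Real.sqrt q * Real.sqrt s) := by ring
      _ = 8 * (60 * z) * Real.sqrt (q * s) := by rw [hNN, hNu, Real.sqrt_mul hq0.le s]
      _ = r := by rw [hrz]; ring
  refine (measure_mono hsub).trans ((htail u).trans ?_)
  refine q_exp q _ _ ?_
  rw [← hz]
  have : N * (12 - u / 30) = N * 12 - (N * u) / 30 := by ring
  rw [this, hNu]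
  linarith

/-- the local Poincare inequality on `U` -/
theorem local_U {C₁ : ℝ} (huntilt : ∀ {κ : Type} [Fintype κ] {q : ℕ}
      (ρ : EuclideanSpace ℝ κ → ℝ), LC ρ →
      ∀ e : Fin q → EuclideanSpace ℝ κ, Orthonormal ℝ e → ∀ K : ℝ, 0 < K →
      (∀ j, ∫ x, ⟪e j, x⟫_ℝ ^ 2 ∂(mu ρ) ≤ K * (mu ρ univ).toReal) →
      (∀ (τ : EuclideanSpace ℝ (Fin q)) (f : EuclideanSpace ℝ κ → ℝ), ContDiff ℝ 1 f →
        ∃ c : ℝ, ∫ x, (f x - c) ^ 2 * tw e K τ x ∂(mu ρ) ≤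
          5 * K * ∫ x, ‖fderiv ℝ f x‖ ^ 2 * tw e K τ x ∂(mu ρ)) →
      ∀ f : EuclideanSpace ℝ κ → ℝ, ContDiff ℝ 1 f →
      ∃ c : ℝ, ∫ x, (f x - c) ^ 2 ∂(mu ρ) ≤
        C₁ * (q + 1) * K * ∫ x, ‖fderiv ℝ f x‖ ^ 2 ∂(mu ρ))
    {𝕜 : Type} [RCLike 𝕜] {N q : ℕ} {ι : Type} [Fintype ι]
    {Φ : EuclideanSpace ℝ ι →ₗ[ℝ] Matrix (Fin N) (Fin N) 𝕜} (h : Fr Φ) (hN : 3 ≤ N)
    (ρ : EuclideanSpace ℝ (Fin q × ι) → ℝ) (hρ : DT Φ ρ) (hb : Bdd ρ) (h1 : mu ρ univ = 1)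
    (hball : ∃ R, (mu ρ) (Metric.closedBall 0 R)ᶜ = 0) (s : ℝ) (hs : 0 < s)
    (hmom : ∀ θ : EuclideanSpace ℝ (Fin q × ι), ∫ x, ⟪θ, x⟫_ℝ ^ 2 ∂(mu ρ) ≤ s * ‖θ‖ ^ 2) (r : ℝ)
    (hr : 0 < r) (K : ℝ) (hK : K = 64 * r ^ 2 * q / N + 2 * s)
    (hhalf : 1 / 2 ≤ (mu ρ {x | ∀ j, OpL r (Φ (cp j x))}).toReal)
    (f : EuclideanSpace ℝ (Fin q × ι) → ℝ) (hf : ContDiff ℝ 1 f) :
    ∃ c : ℝ, ∫ x in {x | ∀ j, OpL r (Φ (cp j x))}, (f x - c) ^ 2 ∂(mu ρ) ≤
      C₁ * (q + 1) * K *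
        ∫ x in {x | ∀ j, OpL r (Φ (cp j x))}, ‖fderiv ℝ f x‖ ^ 2 ∂(mu ρ) := by
  have hprob : IsProbabilityMeasure (mu ρ) := ⟨h1⟩
  have hN3 : (3:ℝ) ≤ N := by exact_mod_cast hN
  have hN0 : (0:ℝ) < N := by linarith
  have hK0 : 0 < K := by rw [hK]; positivity
  obtain ⟨U, hU⟩ : ∃ U : Set (EuclideanSpace ℝ (Fin q × ι)),
    U = {x | ∀ j, OpL r (Φ (cp j x))} := ⟨_, rfl⟩
  rw [← hU] at hhalf ⊢
  have hUm : MeasurableSet U := by
    rw [hU]
    exact (closed_U r).measurableSet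
  obtain ⟨-, hDU, -, -, -⟩ := DT.basic h (by omega) hρ
  have hD := hDU r
  rw [← hU] at hD
  obtain ⟨-, -, -, -, hTU⟩ := DT.basic h (by omega) hD
  have hres : mu (U.indicator ρ) = (mu ρ).restrict U := mu_indicator ρ U hUm
  have horth : Orthonormal ℝ (fun j : Fin q => inj (tv Φ) j) := orth_inj h (by omega)
  have hle : ∀ x, U.indicator ρ x ≤ ρ x := fun x => Set.indicator_le_self' (fun _ _ => hρ.nonneg _) x
  have hbU : Bdd (U.indicator ρ) := by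
    obtain ⟨R, hR⟩ := hb
    refine ⟨R, fun x hx => le_antisymm ?_ (hD.nonneg x)⟩
    rw [← hR x hx]
    exact hle x
  have hfinU : mu (U.indicator ρ) univ ≠ ⊤ := by
    have := (mu_mono ρ (U.indicator ρ) hle univ).trans_eq h1
    exact ne_top_of_le_ne_top ENNReal.one_ne_top this
  have hneU : mu (U.indicator ρ) ≠ 0 := by
    intro h0
    rw [hres] at h0
    have h2 : mu ρ U = 0 := by
      rw [← Measure.restrict_apply_univ, h0]
      simp
    rw [h2] at hhalf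
    norm_num at hhalf
  have hLC : LC (U.indicator ρ) := ⟨hD.nonneg, hD.meas, hD.logc, hbU, hfinU, hneU⟩
  obtain ⟨c, hc⟩ := huntilt (U.indicator ρ) hLC (fun j : Fin q => inj (tv Φ) j) horth
    K hK0 (by
      intro j
      rw [hres, Measure.restrict_apply_univ]
      have h2 : ∫ x in U, ⟪inj (tv Φ) j, x⟫_ℝ ^ 2 ∂(mu ρ) ≤ ∫ x, ⟪inj (tv Φ) j, x⟫_ℝ ^ 2 ∂(mu ρ) :=
        setIntegral_le_integral (intg (mu ρ) hball _ (by fun_prop))
          (ae_of_all _ fun x => by positivity)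
      have h3 := hmom (inj (tv Φ) j)
      have h3' : ‖inj (tv Φ) j‖ = 1 := horth.1 j
      rw [h3'] at h3
      have h4 : 2 * s ≤ K := by
        rw [hK]
        have : 0 ≤ 64 * r ^ 2 * q / N := by positivity
        linarith
      have h5 : s ≤ K * (mu ρ U).toReal := by
        have h6 : K * (1 / 2) ≤ K * (mu ρ U).toReal := mul_le_mul_of_nonneg_left hhalf hK0.le
        linarith
      show ∫ x in U, ⟪inj (tv Φ) j, x⟫_ℝ ^ 2 ∂(mu ρ) ≤ K * (mu ρ U).toReal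
      linarith)
    (by
      intro τ g hg
      obtain ⟨hD', hT'⟩ := hTU K hK0 τ
      have hw0 : ∀ x : EuclideanSpace ℝ (Fin q × ι),
          0 ≤ tw (fun j : Fin q => inj (tv Φ) j) K τ x := fun x => (Real.exp_pos _).le
      have hwm : Measurable fun x : EuclideanSpace ℝ (Fin q × ι) =>
          tw (fun j : Fin q => inj (tv Φ) j) K τ x := by
        apply Continuous.measurable
        unfold tw
        fun_prop
      have hw1 : ∀ x : EuclideanSpace ℝ (Fin q × ι),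
          tw (fun j : Fin q => inj (tv Φ) j) K τ x ≤ 1 := fun x => by
        unfold tw
        rw [Real.exp_le_one_iff, neg_nonpos]
        positivity
      have hle' : ∀ x, U.indicator ρ x * tw (fun j : Fin q => inj (tv Φ) j) K τ x ≤ ρ x :=
        fun x => (mul_le_of_le_one_right (hD.nonneg x) (hw1 x)).trans (hle x)
      have hb' : Bdd (fun x => U.indicator ρ x *
          tw (fun j : Fin q => inj (tv Φ) j) K τ x) := by
        obtain ⟨R, hR⟩ := hbU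
        exact ⟨R, fun x hx => by simp only [hR x hx, zero_mul]⟩
      have hfin' : mu (fun x => U.indicator ρ x *
          tw (fun j : Fin q => inj (tv Φ) j) K τ x) univ ≠ ⊤ := by
        have := (mu_mono ρ _ hle' univ).trans_eq h1
        exact ne_top_of_le_ne_top ENNReal.one_ne_top this
      obtain ⟨c, hc⟩ := local_poincareq h hN _ hD' hb' hfin' r hr
        (fun x hx => by
          have : x ∉ U := by rw [hU]; exact hx
          simp only [Set.indicator_of_notMem this, zero_mul]) K hK0 hT' g hg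
      rw [integral_mu_mul _ _ _ hD.nonneg hD.meas hw0 hwm,
        integral_mu_mul _ _ _ hD.nonneg hD.meas hw0 hwm] at hc
      refine ⟨c, hc.trans (mul_le_mul_of_nonneg_right ?_ ?_)⟩
      · have : 64 * r ^ 2 * q / N ≤ K := by rw [hK]; linarith
        linarith
      · exact integral_nonneg fun x => mul_nonneg (by positivity) (hw0 x))
    f hf
  rw [hres] at hc
  exact ⟨c, hc⟩

end G2x

open G2x in
theorem coreq : ∃ C : ℝ, 0 < C ∧ ∀ {𝕜 : Type} [RCLike 𝕜] {N q : ℕ} {ι : Type} [Fintype ι]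
    {Φ : EuclideanSpace ℝ ι →ₗ[ℝ] Matrix (Fin N) (Fin N) 𝕜}, Fr Φ → 3 ≤ N → 1 ≤ q →
    ∀ ρ : EuclideanSpace ℝ (Fin q × ι) → ℝ, DT Φ ρ → Bdd ρ → mu ρ univ = 1 → ∀ s : ℝ, 0 < s →
    (∀ θ : EuclideanSpace ℝ (Fin q × ι), ∫ x, ⟪θ, x⟫_ℝ ^ 2 ∂(mu ρ) ≤ s * ‖θ‖ ^ 2) →
    ∀ f : EuclideanSpace ℝ (Fin q × ι) → ℝ, ContDiff ℝ 1 f →
    ∫ x, f x ^ 2 ∂(mu ρ) - (∫ x, f x ∂(mu ρ)) ^ 2 ≤
      C * q ^ 4 * s * ∫ x, ‖fderiv ℝ f x‖ ^ 2 ∂(mu ρ) := by
  obtain ⟨C₀, hC₀, hsmall⟩ := Pool.Agent.H212R2.KLS.small_l2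
  obtain ⟨C₁, hC₁, huntilt⟩ := untiltq
  refine ⟨2 * (2 * (2 * C₁ * (4096 * 1230 ^ 2 + 2)) + 4 * (C₀ * 480) ^ 2), by positivity, ?_⟩
  intro 𝕜 _ N q ι _ Φ h hN hq ρ hρ hb h1 s hs hmom f hf
  have hprob : IsProbabilityMeasure (mu ρ) := ⟨h1⟩
  have hN3 : (3:ℝ) ≤ N := by exact_mod_cast hN
  have hq1 : (1:ℝ) ≤ q := by exact_mod_cast hq
  have hN0 : (0:ℝ) < N := by linarith
  have hq0 : (0:ℝ) < q := by linarith
  have hball : ∃ R, (mu ρ) (Metric.closedBall 0 R)ᶜ = 0 := by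
    obtain ⟨R, hR⟩ := hb
    refine ⟨R, ?_⟩
    rw [mu, withDensity_apply_eq_zero' (hρ.meas.ennreal_ofReal.aemeasurable)]
    refine measure_mono_null ?_
      (measure_empty (μ := (volume : Measure (EuclideanSpace ℝ (Fin q × ι)))))
    intro x hx
    refine hx.1 ?_
    have : R < ‖x‖ := by simpa using hx.2
    simp [hR x this]
  have htail : ∀ u : ℝ, mu ρ {x | ¬ ∀ j, OpL (8 * u * Real.sqrt (N * s)) (Φ (cp j x))} ≤
      q * ENNReal.ofReal (Real.exp (N * (12 - u / 30))) := fun u =>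
    op_tailq h (by omega) ρ hρ hb h1 s hs hmom u
  have hsNs : 0 < Real.sqrt (N * s) := Real.sqrt_pos.2 (by positivity)
  obtain ⟨u, hu⟩ : ∃ u : ℝ, u = 1080 + 150 * q := ⟨_, rfl⟩
  have hu0 : 0 < u := by rw [hu]; positivity
  obtain ⟨r, hr⟩ : ∃ r : ℝ, r = 8 * u * Real.sqrt (N * s) := ⟨_, rfl⟩
  have hr0 : 0 < r := by rw [hr]; positivity
  have hUm : MeasurableSet {x : EuclideanSpace ℝ (Fin q × ι) | ∀ j, OpL r (Φ (cp j x))} :=
    (closed_U r).measurableSet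
  have hUc : mu ρ {x : EuclideanSpace ℝ (Fin q × ι) | ∀ j, OpL r (Φ (cp j x))}ᶜ ≤
      ENNReal.ofReal (Real.exp (-(4 * (6 * N + q)))) := by
    have h2 := htail u
    rw [← hr] at h2
    refine h2.trans (q_exp q _ _ ?_)
    rw [hu]
    have h3 : (q : ℝ) ≤ q * N := le_mul_of_one_le_right hq0.le (by linarith)
    nlinarith
  have hhalf : 1 / 2 ≤
      (mu ρ {x : EuclideanSpace ℝ (Fin q × ι) | ∀ j, OpL r (Φ (cp j x))}).toReal := by
    have h2 : (mu ρ).real {x : EuclideanSpace ℝ (Fin q × ι) | ∀ j, OpL r (Φ (cp j x))}ᶜ ≤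
        Real.exp (-(4 * (6 * N + q))) := by
      rw [measureReal_def]
      exact ENNReal.toReal_le_of_le_ofReal (Real.exp_pos _).le hUc
    rw [probReal_compl_eq_one_sub hUm] at h2
    have h3 : Real.exp (-(4 * (6 * (N:ℝ) + q))) ≤ 1 / 2 := by
      rw [Real.exp_neg, inv_le_comm₀ (Real.exp_pos _) (by norm_num)]
      have := Real.add_one_le_exp (4 * (6 * (N:ℝ) + q))
      linarith
    rw [← measureReal_def]
    linarith
  obtain ⟨K, hK⟩ : ∃ K : ℝ, K = 64 * r ^ 2 * q / N + 2 * s := ⟨_, rfl⟩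
  have hKs : K = (4096 * u ^ 2 * q + 2) * s := by
    rw [hK, hr, mul_pow, Real.sq_sqrt (by positivity)]
    field_simp
    ring
  have hK0 : 0 < K := by rw [hKs]; positivity
  have hKle : K ≤ (4096 * 1230 ^ 2 + 2) * q ^ 3 * s := by
    rw [hKs]
    refine mul_le_mul_of_nonneg_right ?_ hs.le
    have h2 : u ≤ 1230 * q := by rw [hu]; linarith
    have h3 : u ^ 2 ≤ (1230 * q) ^ 2 := pow_le_pow_left₀ hu0.le h2 2
    have h4 : u ^ 2 * q ≤ (1230 * q) ^ 2 * q := mul_le_mul_of_nonneg_right h3 hq0.le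
    have h5 : (1 : ℝ) ≤ q ^ 3 := one_le_pow₀ hq1
    have h6 : (1230 * (q : ℝ)) ^ 2 * q = 1230 ^ 2 * q ^ 3 := by ring
    rw [h6] at h4
    nlinarith
  have hLL : (C₀ * (480 * Real.sqrt (q * s))) ^ 2 = (C₀ * 480) ^ 2 * (q * s) := by
    rw [← mul_assoc, mul_pow, Real.sq_sqrt (by positivity)]
  have hfinal := glue (mu ρ) hball (6 * N + q) (C₁ * (q + 1) * K) ((C₀ * 480) ^ 2 * (q * s))
    (by linarith) (by positivity) (by positivity) ?_
    {x : EuclideanSpace ℝ (Fin q × ι) | ∀ j, OpL r (Φ (cp j x))} hUm hUc ?_ f hf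
  · refine hfinal.trans (mul_le_mul_of_nonneg_right ?_ (integral_nonneg fun x => by positivity))
    have h2 : C₁ * (q + 1) * K ≤ C₁ * (2 * q) * ((4096 * 1230 ^ 2 + 2) * q ^ 3 * s) := by
      refine mul_le_mul ?_ hKle hK0.le (by positivity)
      exact mul_le_mul_of_nonneg_left (by linarith) hC₁.le
    have h3 : (q : ℝ) * s ≤ q ^ 4 * s := by
      refine mul_le_mul_of_nonneg_right ?_ hs.le
      have : (q : ℝ) ^ 1 ≤ q ^ 4 := pow_le_pow_right₀ hq1 (by norm_num)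
      rwa [pow_one] at this
    have h4 : (C₀ * 480) ^ 2 * (q * s) ≤ (C₀ * 480) ^ 2 * (q ^ 4 * s) :=
      mul_le_mul_of_nonneg_left h3 (by positivity)
    calc 2 * (2 * (C₁ * (q + 1) * K) + 4 * ((C₀ * 480) ^ 2 * (q * s))) ≤
        2 * (2 * (C₁ * (2 * q) * ((4096 * 1230 ^ 2 + 2) * q ^ 3 * s)) +
          4 * ((C₀ * 480) ^ 2 * (q ^ 4 * s))) := by linarith
      _ = _ := by ring
  · intro g hg hgs
    have h2 := hsmall (mu ρ) h1 hball (fun f hf hf0 hf1 hfs r hr hBr =>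
      Pool.Agent.H212R2.KLS.small_l1 volume ρ hρ.nonneg hρ.meas hρ.logc hb (mu ρ) rfl h1
        f hf hf0 hf1 hfs r hr hBr)
      (480 * Real.sqrt (q * s)) (6 * N + q)
      (mul_pos (by norm_num) (Real.sqrt_pos.2 (by positivity))) (by linarith)
      (fun r hr => ball_tail h hN hq ρ s hs htail r hr) g hg hgs
    rwa [hLL] at h2
  · intro g hg
    exact local_U huntilt h hN ρ hρ hb h1 hball s hs hmom r hr0 K hK hhalf g hg

end Pool.Agent.H888R2.KT
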