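import Pool.Agent.H59.L.S8.H888R2.KT.Defs

/-!
# Equivariance of the posterior mean and of Gaussian averaging
-/

set_option autoImplicit false

namespace Pool.Agent.H888R2.KT

open MeasureTheory Set Matrix Pool.Agent.H888R2.KC
open scoped ENNReal InnerProductSpace
open Pool.Agent.H212R2.KLS (mu Bdd ev gr)

variable {κ : Type} [Fintype κ] {ρ : EuclideanSpace ℝ κ → ℝ}

namespace N10x

theorem mp_mu (hm : Measurable ρ) (g : EuclideanSpace ℝ κ ≃ₗᵢ[ℝ] EuclideanSpace ℝ κ)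
    (hg : ∀ x, ρ (g x) = ρ x) : MeasurePreserving g (mu ρ) (mu ρ) := by
  refine ⟨g.continuous.measurable, ?_⟩
  have hgm : Measurable g := g.continuous.measurable
  have hvol : MeasurePreserving g (volume : Measure (EuclideanSpace ℝ κ)) volume :=
    g.measurePreserving
  ext s hs
  rw [Measure.map_apply hgm hs]
  unfold mu
  rw [withDensity_apply _ (hgm hs), withDensity_apply _ hs]
  have h1 := hvol.setLIntegral_comp_preimage hs (f := fun x => ENNReal.ofReal (ρ x))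
    (by fun_prop)
  rw [← h1]
  simp only [hg]

theorem int_comp (hm : Measurable ρ) (g : EuclideanSpace ℝ κ ≃ₗᵢ[ℝ] EuclideanSpace ℝ κ)
    (hg : ∀ x, ρ (g x) = ρ x) (f : EuclideanSpace ℝ κ → ℝ) :
    ∫ x, f (g x) ∂(mu ρ) = ∫ x, f x ∂(mu ρ) :=
  (mp_mu hm g hg).integral_comp g.toHomeomorph.measurableEmbedding f

theorem int_comp_vol (g : EuclideanSpace ℝ κ ≃ₗᵢ[ℝ] EuclideanSpace ℝ κ)
    (f : EuclideanSpace ℝ κ → ℝ) : ∫ x, f (g x) = ∫ x, f x :=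
  (g.measurePreserving).integral_comp g.toHomeomorph.measurableEmbedding f

theorem nrm (g : EuclideanSpace ℝ κ ≃ₗᵢ[ℝ] EuclideanSpace ℝ κ) (x y : EuclideanSpace ℝ κ) :
    ‖g x - g y‖ = ‖x - y‖ := by
  rw [← map_sub, LinearIsometryEquiv.norm_map]

theorem zz_eq (hm : Measurable ρ) (h : ℝ) (g : EuclideanSpace ℝ κ ≃ₗᵢ[ℝ] EuclideanSpace ℝ κ)
    (hg : ∀ x, ρ (g x) = ρ x) (y : EuclideanSpace ℝ κ) : zz h ρ (g y) = zz h ρ y := by
  unfold zz
  rw [← int_comp hm g hg]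
  simp only [nrm]

theorem pst_eq (hm : Measurable ρ) (h : ℝ) (g : EuclideanSpace ℝ κ ≃ₗᵢ[ℝ] EuclideanSpace ℝ κ)
    (hg : ∀ x, ρ (g x) = ρ x) (u : EuclideanSpace ℝ κ → ℝ) (hu : ∀ x, u (g x) = u x)
    (y : EuclideanSpace ℝ κ) : pst h ρ u (g y) = pst h ρ u y := by
  unfold pst
  rw [zz_eq hm h g hg, ← int_comp hm g hg]
  simp only [nrm, hu]

end N10x

theorem equiv (hρ : LC ρ) (h : ℝ) (g : EuclideanSpace ℝ κ ≃ₗᵢ[ℝ] EuclideanSpace ℝ κ)
    (hg : ∀ x, ρ (g x) = ρ x) (u : EuclideanSpace ℝ κ → ℝ) (hu : ∀ x, u (g x) = u x)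
    (x : EuclideanSpace ℝ κ) : gs h (pst h ρ u) (g x) = gs h (pst h ρ u) x := by
  unfold gs
  rw [← N10x.int_comp_vol g]
  simp only [N10x.nrm, N10x.pst_eq hρ.meas h g hg u hu]

end Pool.Agent.H888R2.KT
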