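import Pool.Agent.H59.L.S8.H888R2.KT.Defs
import Pool.Agent.H59.L.S8.H888R2.KT.N0
import Pool.Agent.H59.L.S8.H888R2.KT.N4
import Pool.Agent.H59.L.S8.H888R2.KT.N5b
import Pool.Agent.H59.L.S8.H888R2.KT.N7

/-!
# Task N9a of project KT: one step of the channel in `L²` (helper862)
-/

set_option autoImplicit false

namespace Pool.Agent.H888R2.KT

open MeasureTheory Set Matrix Pool.Agent.H888R2.KC
open scoped ENNReal InnerProductSpace
open Pool.Agent.H212R2.KLS (mu Bdd ev gr)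

namespace N9ax

variable {κ : Type} [Fintype κ] {ρ : EuclideanSpace ℝ κ → ℝ}

/-- continuous functions are integrable -/
theorem integrable (hρ : LC ρ) {f : EuclideanSpace ℝ κ → ℝ} (hf : Continuous f) :
    Integrable f (mu ρ) := by
  have h1 := (zz_pos hρ 1 one_pos 0).2
    (fun x => f x * Real.exp (‖x - 0‖ ^ 2 / (2 * 1))) (by fun_prop)
  refine h1.congr (Filter.Eventually.of_forall fun x => ?_)
  show f x * Real.exp (‖x - 0‖ ^ 2 / (2 * 1)) * Real.exp (-(‖x - 0‖ ^ 2 / (2 * 1))) = f x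
  rw [mul_assoc, ← Real.exp_add, add_neg_cancel, Real.exp_zero, mul_one]

theorem pst_one (hρ : LC ρ) (h : ℝ) (hh : 0 < h) (y : EuclideanSpace ℝ κ) :
    pst h ρ (fun _ => 1) y = 1 := by
  have h1 := (zz_pos hρ h hh y).1
  unfold pst
  have h2 : (∫ x, (fun _ : EuclideanSpace ℝ κ => (1 : ℝ)) x *
      Real.exp (-(‖x - y‖ ^ 2 / (2 * h))) ∂(mu ρ)) = zz h ρ y := by
    unfold zz
    simp only [one_mul]
  rw [h2, div_self h1.ne']

theorem gs_one (h : ℝ) (hh : 0 < h) (x : EuclideanSpace ℝ κ) :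
    gs h (fun _ => 1) x = 1 := by
  have h1 := gc_pos (κ := κ) h hh
  unfold gs
  have h2 : (∫ y, (fun _ : EuclideanSpace ℝ κ => (1 : ℝ)) y *
      Real.exp (-(‖x - y‖ ^ 2 / (2 * h)))) = gc κ h := by
    rw [← h1.2.1 x]
    simp only [one_mul]
  rw [h2, div_self h1.1.ne']

/-- `∫ f dμ = gc⁻¹ ∫ pst f zz` -/
theorem fub1 (hρ : LC ρ) (h : ℝ) (hh : 0 < h) (f : EuclideanSpace ℝ κ → ℝ) (hf : Continuous f) :
    Integrable (fun y => pst h ρ f y * zz h ρ y) ∧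
      ∫ x, f x ∂(mu ρ) = (gc κ h)⁻¹ * ∫ y, pst h ρ f y * zz h ρ y := by
  obtain ⟨h1, -, h3⟩ := fub hρ h hh f (fun _ => 1) hf continuous_const 1
    (fun y => by simp)
  simp only [gs_one h hh, mul_one] at h1 h3
  exact ⟨h1, h3⟩

end N9ax

open N9ax in
theorem l2step {κ : Type} [Fintype κ] {ρ : EuclideanSpace ℝ κ → ℝ} (hρ : LC ρ) (h : ℝ)
    (hh : 0 < h) (u : EuclideanSpace ℝ κ → ℝ) (hu : ContDiff ℝ 1 u) :
    ∫ x, gs h (pst h ρ u) x ∂(mu ρ) = ∫ x, u x ∂(mu ρ) ∧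
    ∫ x, u x ^ 2 ∂(mu ρ) - ∫ x, (gs h (pst h ρ u) x) ^ 2 ∂(mu ρ) ≤
      2 * h * ∫ x, ‖fderiv ℝ u x‖ ^ 2 ∂(mu ρ) := by
  have huc : Continuous u := hu.continuous
  obtain ⟨hg, B, hB⟩ := pst_smooth hρ h hh u huc
  have hgc : Continuous (pst h ρ u) := hg.continuous
  have hgB : ∀ y, |pst h ρ u y| ≤ B := fun y => (hB y).1
  have hdc : Continuous (fun x => ‖fderiv ℝ u x‖ ^ 2) :=
    (hu.continuous_fderiv one_ne_zero).norm.pow 2
  have hu2c : Continuous (fun x => u x ^ 2) := huc.pow 2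
  -- first part
  have h1 := fub1 hρ h hh u huc
  obtain ⟨-, hQc, h2⟩ := fub hρ h hh (fun _ => 1) (pst h ρ u) continuous_const hgc B hgB
  simp only [pst_one hρ h hh, one_mul] at h2
  refine ⟨by rw [h2, h1.2], ?_⟩
  -- second part
  have hA := fub1 hρ h hh (fun x => u x ^ 2) hu2c
  have hD := fub1 hρ h hh (fun x => ‖fderiv ℝ u x‖ ^ 2) hdc
  obtain ⟨hBi, -, hBe⟩ := fub hρ h hh u (pst h ρ u) huc hgc B hgB
  have hgc0 : 0 < (gc κ h)⁻¹ := inv_pos.2 (gc_pos (κ := κ) h hh).1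
  have hAB : ∫ x, u x ^ 2 ∂(mu ρ) - ∫ x, u x * gs h (pst h ρ u) x ∂(mu ρ) ≤
      h * ∫ x, ‖fderiv ℝ u x‖ ^ 2 ∂(mu ρ) := by
    rw [hA.2, hBe, hD.2]
    have h3 : ∫ y, pst h ρ (fun x => u x ^ 2) y * zz h ρ y ≤
        ∫ y, (pst h ρ u y * pst h ρ u y * zz h ρ y +
          h * (pst h ρ (fun x => ‖fderiv ℝ u x‖ ^ 2) y * zz h ρ y)) := by
      refine integral_mono hA.1 (hBi.add (hD.1.const_mul h)) fun y => ?_
      have h4 := var_contr hρ h hh u hu y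
      have h5 := (zz_pos hρ h hh y).1
      show pst h ρ (fun x => u x ^ 2) y * zz h ρ y ≤ pst h ρ u y * pst h ρ u y * zz h ρ y +
          h * (pst h ρ (fun x => ‖fderiv ℝ u x‖ ^ 2) y * zz h ρ y)
      nlinarith [mul_le_mul_of_nonneg_right h4 h5.le]
    rw [integral_add hBi (hD.1.const_mul h), integral_const_mul] at h3
    have h6 := mul_le_mul_of_nonneg_left h3 hgc0.le
    linarith [h6]
  have i1 : Integrable (fun x => u x ^ 2) (mu ρ) := integrable hρ hu2c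
  have i2 : Integrable (fun x => u x * gs h (pst h ρ u) x) (mu ρ) :=
    integrable hρ (huc.mul hQc)
  have i3 : Integrable (fun x => gs h (pst h ρ u) x ^ 2) (mu ρ) := integrable hρ (hQc.pow 2)
  have h7 : 0 ≤ ∫ x, (u x - gs h (pst h ρ u) x) ^ 2 ∂(mu ρ) :=
    integral_nonneg fun x => sq_nonneg _
  have h8 : ∫ x, (u x - gs h (pst h ρ u) x) ^ 2 ∂(mu ρ) =
      ∫ x, u x ^ 2 ∂(mu ρ) - 2 * ∫ x, u x * gs h (pst h ρ u) x ∂(mu ρ) +
        ∫ x, gs h (pst h ρ u) x ^ 2 ∂(mu ρ) := by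
    have i12 : Integrable (fun x => u x ^ 2 - 2 * (u x * gs h (pst h ρ u) x)) (mu ρ) :=
      i1.sub (i2.const_mul 2)
    rw [← integral_const_mul, ← integral_sub i1 (i2.const_mul 2), ← integral_add i12 i3]
    refine integral_congr_ae (Filter.Eventually.of_forall fun x => ?_)
    show (u x - gs h (pst h ρ u) x) ^ 2 = u x ^ 2 - 2 * (u x * gs h (pst h ρ u) x) +
      gs h (pst h ρ u) x ^ 2
    ring
  rw [h8] at h7
  linarith

end Pool.Agent.H888R2.KT
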