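import Mathlib
import Pool.Agent.H59.L.S8.H888R2.KT.Defs
import Pool.Agent.H59.L.S8.H888R2.KT.N2
import Pool.Agent.H59.L.S8.H888R2.KT.N8
import Pool.Agent.H59.L.S8.H888R2.KT.N9a

set_option autoImplicit false

namespace Pool.Agent.H888R2.KT

open MeasureTheory Set Matrix Pool.Agent.H888R2.KC
open scoped ENNReal InnerProductSpace
open Pool.Agent.H212R2.KLS (mu Bdd ev gr)

namespace N9x

variable {κ : Type} [Fintype κ] {ρ : EuclideanSpace ℝ κ → ℝ}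

theorem finm (hρ : LC ρ) : IsFiniteMeasure (mu ρ) := ⟨lt_top_iff_ne_top.mpr hρ.fin⟩

theorem ae_ne (hρ : LC ρ) : ∀ᵐ x ∂(mu ρ), ρ x ≠ 0 := by
  unfold mu
  rw [ae_withDensity_iff (hρ.meas.ennreal_ofReal)]
  refine Filter.Eventually.of_forall fun x hx h => hx ?_
  rw [h, ENNReal.ofReal_zero]

theorem int_cont (hρ : LC ρ) {g : EuclideanSpace ℝ κ → ℝ} (hg : Continuous g) :
    Integrable g (mu ρ) := by
  have := finm hρ
  obtain ⟨R, hR⟩ := hρ.bdd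
  obtain ⟨C, hC⟩ := (isCompact_closedBall (0 : EuclideanSpace ℝ κ) R).exists_bound_of_continuousOn
    hg.continuousOn
  refine Integrable.of_bound hg.aestronglyMeasurable C ?_
  filter_upwards [ae_ne hρ] with x hx
  refine hC x ?_
  rw [mem_closedBall_zero_iff]
  by_contra h
  exact hx (hR x (not_le.mp h))

theorem mass_pos (hρ : LC ρ) : 0 < (mu ρ).real univ := by
  have := finm hρ
  rw [measureReal_def]
  refine ENNReal.toReal_pos ?_ hρ.fin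
  intro h
  exact hρ.ne (Measure.measure_univ_eq_zero.mp h)

/-- the variance expansion -/
theorem var_eq (hρ : LC ρ) {u : EuclideanSpace ℝ κ → ℝ} (hu : Continuous u) (c : ℝ) :
    ∫ x, (u x - c) ^ 2 ∂(mu ρ) =
      ∫ x, u x ^ 2 ∂(mu ρ) - 2 * c * ∫ x, u x ∂(mu ρ) + c ^ 2 * (mu ρ).real univ := by
  have := finm hρ
  have h1 : Integrable (fun x => u x ^ 2) (mu ρ) := int_cont hρ (hu.pow 2)
  have h2 : Integrable (fun x => 2 * c * u x) (mu ρ) := int_cont hρ (continuous_const.mul hu)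
  have h3 : Integrable (fun _ : EuclideanSpace ℝ κ => c ^ 2) (mu ρ) := integrable_const _
  have e : (fun x => (u x - c) ^ 2) = fun x => (u x ^ 2 - 2 * c * u x) + c ^ 2 := by
    funext x; ring
  have e1 := integral_add (h1.sub h2) h3
  have e2 := integral_sub h1 h2
  simp only [Pi.sub_apply] at e1 e2
  rw [e, e1, e2, integral_const_mul, integral_const]
  simp only [smul_eq_mul]
  ring

/-- the variance (times the mass) -/
noncomputable def W (ρ : EuclideanSpace ℝ κ → ℝ) (u : EuclideanSpace ℝ κ → ℝ) : ℝ :=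
  ∫ x, u x ^ 2 ∂(mu ρ) - (∫ x, u x ∂(mu ρ)) ^ 2 / (mu ρ).real univ

theorem W_eq (hρ : LC ρ) {u : EuclideanSpace ℝ κ → ℝ} (hu : Continuous u) :
    ∫ x, (u x - (∫ x, u x ∂(mu ρ)) / (mu ρ).real univ) ^ 2 ∂(mu ρ) = W ρ u := by
  have hm := mass_pos hρ
  rw [var_eq hρ hu, W]
  field_simp
  ring

theorem W_le (hρ : LC ρ) {u : EuclideanSpace ℝ κ → ℝ} (hu : Continuous u) (c : ℝ) :
    W ρ u ≤ ∫ x, (u x - c) ^ 2 ∂(mu ρ) := by
  have hm := mass_pos hρ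
  rw [var_eq hρ hu, W]
  have h1 : 0 ≤ (∫ x, u x ∂(mu ρ) - c * (mu ρ).real univ) ^ 2 / (mu ρ).real univ := by positivity
  have h2 : (∫ x, u x ∂(mu ρ) - c * (mu ρ).real univ) ^ 2 / (mu ρ).real univ =
      (∫ x, u x ∂(mu ρ)) ^ 2 / (mu ρ).real univ - 2 * c * ∫ x, u x ∂(mu ρ) +
        c ^ 2 * (mu ρ).real univ := by
    field_simp
    ring
  rw [h2] at h1
  linarith

theorem grad_cont {v : EuclideanSpace ℝ κ → ℝ} (hv : ContDiff ℝ 1 v) :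
    Continuous (fun x => ‖fderiv ℝ v x‖ ^ 2) :=
  (hv.continuous_fderiv (by norm_num)).norm.pow 2

theorem dir_cont {v : EuclideanSpace ℝ κ → ℝ} (hv : ContDiff ℝ 1 v) (w : EuclideanSpace ℝ κ) :
    Continuous (fun x => fderiv ℝ v x w) :=
  (hv.continuous_fderiv (by norm_num)).clm_apply continuous_const

theorem hs_cont {v : EuclideanSpace ℝ κ → ℝ} (hv : ContDiff ℝ 2 v) : Continuous (hs v) := by
  classical
  unfold hs
  refine continuous_finset_sum _ fun i _ => ?_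
  have h1 : ContDiff ℝ 1 (fun z => fderiv ℝ v z (EuclideanSpace.single i (1 : ℝ))) :=
    (hv.fderiv_right (m := 1) (by norm_num)).clm_apply contDiff_const
  have h2 := grad_cont h1
  exact h2

end N9x

open N9x

theorem iter {κ : Type} [Fintype κ] {ρ : EuclideanSpace ℝ κ → ℝ}
    (hρ : LC ρ) {q : ℕ} (e : Fin q → EuclideanSpace ℝ κ) (he : Orthonormal ℝ e)
    (K : ℝ) (hK : 0 < K) (hT : St e K ρ) (Θ : ℝ) (hΘ : K ≤ Θ) (S : Set (EuclideanSpace ℝ κ → ℝ))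
    (hS : ∀ u ∈ S, ContDiff ℝ 1 u → gs Θ (pst Θ ρ u) ∈ S)
    (hS2 : ∀ v ∈ S, ContDiff ℝ 2 v → ∀ x, ρ x ≠ 0 →
      ‖fderiv ℝ v x‖ ^ 2 - ∑ j, (fderiv ℝ v x (e j)) ^ 2 ≤ Θ * hs v x)
    (u : EuclideanSpace ℝ κ → ℝ) (hu : u ∈ S) (hu1 : ContDiff ℝ 1 u) :
    ∃ c : ℝ, ∫ x, (u x - c) ^ 2 ∂(mu ρ) ≤ 4 * Θ * ∫ x, ‖fderiv ℝ u x‖ ^ 2 ∂(mu ρ) := by
  have hΘ0 : 0 < Θ := lt_of_lt_of_le hK hΘ
  obtain ⟨R, hR0, hR⟩ : ∃ R : ℝ, 0 < R ∧ ∀ x, R < ‖x‖ → ρ x = 0 := by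
    obtain ⟨R₀, hR₀⟩ := hρ.bdd
    exact ⟨max R₀ 1, lt_of_lt_of_le one_pos (le_max_right _ _), fun x hx =>
      hR₀ x (lt_of_le_of_lt (le_max_left _ _) hx)⟩
  -- contraction of the Dirichlet form
  have hD : ∀ u ∈ S, ContDiff ℝ 1 u → ContDiff ℝ 2 (gs Θ (pst Θ ρ u)) ∧
      2 * ∫ x, ‖fderiv ℝ (gs Θ (pst Θ ρ u)) x‖ ^ 2 ∂(mu ρ) ≤
        ∫ x, ‖fderiv ℝ u x‖ ^ 2 ∂(mu ρ) := by
    intro u hu hu1
    obtain ⟨h1, h2⟩ := key hρ e he K hK hT Θ hΘ0 u hu1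
    refine ⟨h1, le_trans ?_ h2⟩
    have h1' : ContDiff ℝ 1 (gs Θ (pst Θ ρ u)) := h1.of_le (by norm_num)
    rw [← integral_const_mul]
    have hc1 : Continuous (fun x => 2 * ‖fderiv ℝ (gs Θ (pst Θ ρ u)) x‖ ^ 2) :=
      continuous_const.mul (grad_cont h1')
    have hc2 : Continuous (fun x => ‖fderiv ℝ (gs Θ (pst Θ ρ u)) x‖ ^ 2 +
        Θ * hs (gs Θ (pst Θ ρ u)) x +
        Θ / K * ∑ j, (fderiv ℝ (gs Θ (pst Θ ρ u)) x (e j)) ^ 2) :=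
      ((grad_cont h1').add (continuous_const.mul (hs_cont h1))).add
        (continuous_const.mul (continuous_finset_sum _ fun j _ => (dir_cont h1' (e j)).pow 2))
    refine integral_mono_ae (int_cont hρ hc1) (int_cont hρ hc2) ?_
    filter_upwards [ae_ne hρ] with x hx
    have h3 := hS2 _ (hS u hu hu1) h1 x hx
    have h4 : 0 ≤ ∑ j, (fderiv ℝ (gs Θ (pst Θ ρ u)) x (e j)) ^ 2 :=
      Finset.sum_nonneg fun j _ => sq_nonneg _
    have h5 : 1 ≤ Θ / K := by rw [le_div_iff₀ hK]; linarith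
    have h6 := mul_le_mul_of_nonneg_right h5 h4
    rw [one_mul] at h6
    linarith
  -- induction
  have hind : ∀ n : ℕ, ∀ u ∈ S, ContDiff ℝ 1 u →
      W ρ u ≤ (4 * Θ + (2 * R ^ 2 - 4 * Θ) * (1 / 2) ^ n) * ∫ x, ‖fderiv ℝ u x‖ ^ 2 ∂(mu ρ) := by
    intro n
    induction n with
    | zero =>
      intro u _ hu1
      obtain ⟨c, hc⟩ := ball_poincare hρ R hR0 hR u hu1
      have := W_le hρ hu1.continuous c
      calc W ρ u ≤ _ := this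
        _ ≤ _ := hc
        _ = _ := by ring
    | succ n ih =>
      intro u hu hu1
      obtain ⟨h1, h2⟩ := hD u hu hu1
      have h1' : ContDiff ℝ 1 (gs Θ (pst Θ ρ u)) := h1.of_le (by norm_num)
      have h3 := ih _ (hS u hu hu1) h1'
      obtain ⟨h4, h5⟩ := l2step hρ Θ hΘ0 u hu1
      have h6 : W ρ u ≤ W ρ (gs Θ (pst Θ ρ u)) +
          2 * Θ * ∫ x, ‖fderiv ℝ u x‖ ^ 2 ∂(mu ρ) := by
        unfold W
        rw [h4]
        linarith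
      have hcoef : 0 ≤ 4 * Θ + (2 * R ^ 2 - 4 * Θ) * (1 / 2 : ℝ) ^ n := by
        have hp0 : (0 : ℝ) < (1 / 2) ^ n := by positivity
        have hp1 : (1 / 2 : ℝ) ^ n ≤ 1 := pow_le_one₀ (by norm_num) (by norm_num)
        have : 4 * Θ + (2 * R ^ 2 - 4 * Θ) * (1 / 2 : ℝ) ^ n =
          4 * Θ * (1 - (1 / 2 : ℝ) ^ n) + 2 * R ^ 2 * (1 / 2 : ℝ) ^ n := by ring
        rw [this]
        have h7 : 0 ≤ 1 - (1 / 2 : ℝ) ^ n := by linarith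
        positivity
      have h8 : ∫ x, ‖fderiv ℝ (gs Θ (pst Θ ρ u)) x‖ ^ 2 ∂(mu ρ) ≤
          1 / 2 * ∫ x, ‖fderiv ℝ u x‖ ^ 2 ∂(mu ρ) := by linarith
      have h9 := mul_le_mul_of_nonneg_left h8 hcoef
      calc W ρ u ≤ _ := h6
        _ ≤ (4 * Θ + (2 * R ^ 2 - 4 * Θ) * (1 / 2) ^ n) *
            (1 / 2 * ∫ x, ‖fderiv ℝ u x‖ ^ 2 ∂(mu ρ)) +
            2 * Θ * ∫ x, ‖fderiv ℝ u x‖ ^ 2 ∂(mu ρ) := by linarith
        _ = _ := by rw [pow_succ]; ring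
  refine ⟨(∫ x, u x ∂(mu ρ)) / (mu ρ).real univ, ?_⟩
  rw [W_eq hρ hu1.continuous]
  have hlim : Filter.Tendsto (fun n : ℕ => (4 * Θ + (2 * R ^ 2 - 4 * Θ) * (1 / 2 : ℝ) ^ n) *
      ∫ x, ‖fderiv ℝ u x‖ ^ 2 ∂(mu ρ)) Filter.atTop
      (nhds ((4 * Θ + (2 * R ^ 2 - 4 * Θ) * 0) * ∫ x, ‖fderiv ℝ u x‖ ^ 2 ∂(mu ρ))) := by
    have h1 : Filter.Tendsto (fun n : ℕ => (1 / 2 : ℝ) ^ n) Filter.atTop (nhds 0) :=
      tendsto_pow_atTop_nhds_zero_of_lt_one (by norm_num) (by norm_num)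
    exact ((h1.const_mul _).const_add _).mul_const _
  rw [mul_zero, add_zero] at hlim
  exact ge_of_tendsto' hlim fun n => hind n u hu hu1

end Pool.Agent.H888R2.KT
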